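import Pool.Agent.Helper20.GS.Gad

/-!
# Costs of sets of heights
-/

set_option autoImplicit false
set_option linter.unusedSectionVars false

open Finset
open scoped Classical

namespace Pool.Agent.Helper20.GS
open Pool.Agent.W904.AK

/-- There are families of lines such that the points at each of finitely many heights in `U` have
an entropy smaller than `L` by almost `L / c`. -/
def Good (U : Set ℚ) (c : ℝ) : Prop :=
  0 < c ∧ ∀ T : Finset ℚ, (T : Set ℚ) ⊆ U → ∀ c' : ℝ, c < c' →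
    ∃ G : Gad, 0 < G.L ∧ ∀ t ∈ T, G.L ≤ c' * (G.L - G.h t)

/-- Costs add up. -/
theorem combine {ι : Type} [Fintype ι] (U : ι → Set ℚ) (c : ι → ℝ) (hU : ∀ i, Good (U i) (c i))
    (T : Finset ℚ) (hT : ∀ t ∈ T, ∃ i, t ∈ U i) (κ : ℝ) (hκ : 0 ≤ κ)
    (h : κ * (∑ i, c i - 1) < ∑ i, c i) : ∃ G : Gad, ∀ t ∈ T, κ * G.h t < G.L := by
  rcases T.eq_empty_or_nonempty with hT0 | ⟨t₀, ht₀⟩
  · obtain ⟨G, _, _⟩ := Gad.zero
    exact ⟨G, by simp [hT0]⟩
  set m : ℝ := (Fintype.card ι : ℝ) with hm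
  have hm0 : 0 ≤ m := by positivity
  set gap : ℝ := ∑ i, c i - κ * (∑ i, c i - 1) with hgap
  have hgap0 : 0 < gap := by rw [hgap]; linarith
  obtain ⟨η, hη, hη2⟩ : ∃ η : ℝ, 0 < η ∧ κ * m * η < gap := by
    refine ⟨gap / (κ * m + 1), by positivity, ?_⟩
    rw [mul_div_assoc', div_lt_iff₀ (by positivity)]
    nlinarith
  have hch : ∀ i, ∃ G : Gad, 0 < G.L ∧ ∀ t ∈ T.filter (fun t => t ∈ U i),
      G.L ≤ (c i + η) * (G.L - G.h t) := by
    intro i
    refine (hU i).2 (T.filter fun t => t ∈ U i) ?_ (c i + η) (by linarith)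
    intro t ht
    rw [coe_filter] at ht
    exact ht.2
  choose G hG1 hG2 using hch
  set S' : ℝ := ∑ i, (c i + η) with hS'
  have hS'' : S' = ∑ i, c i + m * η := by
    rw [hS', Finset.sum_add_distrib, Finset.sum_const, card_univ, nsmul_eq_mul]
  have hkey : κ * (S' - 1) < S' := by
    rw [hS'']
    have : 0 ≤ m * η := by positivity
    nlinarith
  obtain ⟨i₀, hi₀⟩ := hT t₀ ht₀
  set Λ : ℝ := ∑ i, (G i).L with hΛ
  have hΛ0 : 0 ≤ Λ := Finset.sum_nonneg fun i _ => (hG1 i).le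
  have hS0 : 0 < S' := by
    rw [hS']
    exact Finset.sum_pos (fun i _ => by have := (hU i).1; linarith) ⟨i₀, mem_univ _⟩
  obtain ⟨N, hN⟩ := exists_nat_gt (max 0 (κ * Λ / (S' - κ * (S' - 1))))
  have hN0 : (0 : ℝ) < N := (le_max_left _ _).trans_lt hN
  have hN1 : κ * Λ < N * (S' - κ * (S' - 1)) := by
    rw [← div_lt_iff₀ (by linarith)]
    exact (le_max_right _ _).trans_lt hN
  obtain ⟨G', h1, h2⟩ := Gad.sum univ G (fun i => ⌈N * (c i + η) / (G i).L⌉₊)
  have lo : ∀ i, N * (c i + η) ≤ (⌈N * (c i + η) / (G i).L⌉₊ : ℝ) * (G i).L := by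
    intro i
    rw [← div_le_iff₀ (hG1 i)]
    exact Nat.le_ceil _
  have up : ∀ i, (⌈N * (c i + η) / (G i).L⌉₊ : ℝ) * (G i).L ≤ N * (c i + η) + (G i).L := by
    intro i
    have hci := (hU i).1
    have := Nat.ceil_lt_add_one (a := N * (c i + η) / (G i).L)
      (div_nonneg (by positivity) (hG1 i).le)
    have h3 := mul_le_mul_of_nonneg_right this.le (hG1 i).le
    rw [add_mul, div_mul_cancel₀ _ (hG1 i).ne', one_mul] at h3
    exact h3
  have hLup : G'.L ≤ N * S' + Λ := by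
    rw [h1, hS', hΛ, Finset.mul_sum, ← Finset.sum_add_distrib]
    exact Finset.sum_le_sum fun i _ => up i
  have hLlo : N * S' ≤ G'.L := by
    rw [h1, hS', Finset.mul_sum]
    exact Finset.sum_le_sum fun i _ => lo i
  refine ⟨G', fun t ht => ?_⟩
  obtain ⟨i, hi⟩ := hT t ht
  have h3 := hG2 i t (by simp [ht, hi])
  have hci := (hU i).1
  -- the gain
  have gain : (N : ℝ) ≤ (⌈N * (c i + η) / (G i).L⌉₊ : ℝ) * ((G i).L - (G i).h t) := by
    have h4 : (G i).L / (c i + η) ≤ (G i).L - (G i).h t := by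
      rw [div_le_iff₀ (by linarith)]
      linarith
    have h5 := mul_le_mul_of_nonneg_left h4
      (Nat.cast_nonneg (α := ℝ) ⌈N * (c i + η) / (G i).L⌉₊)
    refine le_trans ?_ h5
    rw [mul_div_assoc', le_div_iff₀ (by linarith)]
    exact lo i
  have hh : G'.h t ≤ G'.L - N := by
    have h6 := h2 t
    have h7 : ∑ i, (⌈N * (c i + η) / (G i).L⌉₊ : ℝ) * (G i).h t ≤ G'.L - N := by
      rw [h1, le_sub_iff_add_le]
      have h8 : ∑ x ∈ univ.erase i, (⌈N * (c x + η) / (G x).L⌉₊ : ℝ) * (G x).h t ≤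
          ∑ x ∈ univ.erase i, (⌈N * (c x + η) / (G x).L⌉₊ : ℝ) * (G x).L :=
        Finset.sum_le_sum fun x _ => mul_le_mul_of_nonneg_left ((G x).h_le t) (Nat.cast_nonneg _)
      rw [← Finset.add_sum_erase _ _ (mem_univ i), ← Finset.add_sum_erase _ _ (mem_univ i)]
      rw [mul_sub] at gain
      linarith
    exact h6.trans h7
  have h9 : κ * G'.h t ≤ κ * (G'.L - N) := mul_le_mul_of_nonneg_left hh hκ
  refine lt_of_le_of_lt h9 ?_
  by_cases hk1 : κ ≤ 1
  · have h10 : 0 ≤ G'.L - N := (G'.h_nonneg t).trans hh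
    have := mul_le_mul_of_nonneg_right hk1 h10
    linarith
  · push Not at hk1
    have h11 : (κ - 1) * G'.L ≤ (κ - 1) * (N * S' + Λ) :=
      mul_le_mul_of_nonneg_left hLup (by linarith)
    nlinarith

end Pool.Agent.Helper20.GS
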