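import Pool.Agent.Helper20.GS.Dig

/-!
# The entropy of the difference of two digits
-/

set_option autoImplicit false
set_option linter.unusedSectionVars false

open Finset
open scoped Classical

namespace Pool.Agent.Helper20.GS
open Pool.Agent.W904.AK

/-- The mean of the logarithms of the fibre sizes of the difference of two digits. -/
noncomputable def gam (n : ℕ) : ℝ :=
  (n * Real.log n + 2 * ∑ m ∈ range n, m * Real.log m) / n ^ 2

/-- Double sums of functions of the distance. -/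
lemma sum_dist (φ : ℕ → ℝ) (n : ℕ) :
    ∑ i ∈ range n, ∑ j ∈ range n, φ (((i : ℤ) - j).natAbs) =
      n * φ 0 + 2 * ∑ e ∈ range n, ((n : ℝ) - 1 - e) * φ (e + 1) := by
  induction n with
  | zero => simp
  | succ n ih =>
    have e1 : ∀ i : ℕ, ∑ j ∈ range (n + 1), φ (((i : ℤ) - j).natAbs) =
        ∑ j ∈ range n, φ (((i : ℤ) - j).natAbs) + φ (((i : ℤ) - n).natAbs) := fun i =>
      Finset.sum_range_succ _ _
    rw [Finset.sum_range_succ, Finset.sum_congr rfl fun i _ => e1 i, e1 n,
      Finset.sum_add_distrib, ih, Finset.sum_range_succ]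
    have e2 : ∑ i ∈ range n, φ (((i : ℤ) - (n : ℤ)).natAbs) = ∑ e ∈ range n, φ (e + 1) := by
      rw [← Finset.sum_range_reflect]
      refine Finset.sum_congr rfl fun e he => ?_
      rw [mem_range] at he
      congr 1
      omega
    have e3 : ∑ j ∈ range n, φ (((n : ℕ) : ℤ) - (j : ℤ)).natAbs = ∑ e ∈ range n, φ (e + 1) := by
      rw [← Finset.sum_range_reflect]
      refine Finset.sum_congr rfl fun e he => ?_
      rw [mem_range] at he
      congr 1
      omega
    rw [e2, e3]
    simp only [sub_self, Int.natAbs_zero]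
    push_cast
    have e4 : ∑ x ∈ range n, ((n : ℝ) + 1 - 1 - x) * φ (x + 1) =
        ∑ x ∈ range n, ((n : ℝ) - 1 - x) * φ (x + 1) + ∑ x ∈ range n, φ (x + 1) := by
      rw [← Finset.sum_add_distrib]
      refine Finset.sum_congr rfl fun x _ => ?_
      ring
    rw [e4]
    ring

/-- The fibres of the difference of two digits. -/
lemma mm_diff {n : ℕ} (x : Fin n × Fin n) :
    mm (fun z : Fin n × Fin n => ((z.1 : ℕ) : ℚ) - ((z.2 : ℕ) : ℚ)) x =
      n - (((x.1 : ℕ) : ℤ) - ((x.2 : ℕ) : ℤ)).natAbs := by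
  have h1 := x.1.2
  have h2 := x.2.2
  have key : ∀ z : Fin n × Fin n, (((z.1 : ℕ) : ℚ) - ((z.2 : ℕ) : ℚ) =
      ((x.1 : ℕ) : ℚ) - ((x.2 : ℕ) : ℚ)) ↔ ((z.1 : ℕ) : ℤ) - ((z.2 : ℕ) : ℤ) =
        ((x.1 : ℕ) : ℤ) - ((x.2 : ℕ) : ℤ) := by
    intro z
    constructor
    · intro h; exact_mod_cast h
    · intro h; exact_mod_cast h
  unfold mm
  rw [← card_range (n - (((x.1 : ℕ) : ℤ) - ((x.2 : ℕ) : ℤ)).natAbs)]
  by_cases hle : (x.2 : ℕ) ≤ (x.1 : ℕ)
  · refine Finset.card_bij (fun z _ => (z.2 : ℕ)) ?_ ?_ ?_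
    · intro z hz
      have h3 := (key z).1 (by simpa using hz)
      have := z.1.2
      rw [mem_range]
      omega
    · intro z hz w hw h
      have h3 := (key z).1 (by simpa using hz)
      have h4 := (key w).1 (by simpa using hw)
      refine Prod.ext (Fin.ext ?_) (Fin.ext h)
      omega
    · intro v hv
      rw [mem_range] at hv
      refine ⟨(⟨v + ((x.1 : ℕ) - (x.2 : ℕ)), by omega⟩, ⟨v, by omega⟩), ?_, rfl⟩
      simp only [mem_filter, mem_univ, true_and]
      rw [Nat.cast_add, Nat.cast_sub hle]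
      ring
  · refine Finset.card_bij (fun z _ => (z.1 : ℕ)) ?_ ?_ ?_
    · intro z hz
      have h3 := (key z).1 (by simpa using hz)
      have := z.2.2
      rw [mem_range]
      omega
    · intro z hz w hw h
      have h3 := (key z).1 (by simpa using hz)
      have h4 := (key w).1 (by simpa using hw)
      refine Prod.ext (Fin.ext h) (Fin.ext ?_)
      omega
    · intro v hv
      rw [mem_range] at hv
      refine ⟨(⟨v, by omega⟩, ⟨v + ((x.2 : ℕ) - (x.1 : ℕ)), by omega⟩), ?_, rfl⟩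
      simp only [mem_filter, mem_univ, true_and]
      rw [Nat.cast_add, Nat.cast_sub (by omega)]
      ring

lemma mn_diff {n : ℕ} (hn : 0 < n) :
    mn (fun z : Fin n × Fin n => ((z.1 : ℕ) : ℚ) - ((z.2 : ℕ) : ℚ)) = gam n := by
  unfold mn gam
  have e0 : ((Fintype.card (Fin n × Fin n) : ℕ) : ℝ) = (n : ℝ) ^ 2 := by
    rw [Fintype.card_prod, Fintype.card_fin]
    push_cast
    ring
  rw [e0]
  congr 1
  rw [Fintype.sum_prod_type]
  have e1 : ∀ i j : Fin n, Real.log (mm (fun z : Fin n × Fin n =>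
      ((z.1 : ℕ) : ℚ) - ((z.2 : ℕ) : ℚ)) (i, j)) =
      (fun e : ℕ => Real.log ((n - e : ℕ) : ℝ)) (((i : ℕ) : ℤ) - ((j : ℕ) : ℤ)).natAbs := by
    intro i j
    rw [mm_diff]
  simp only [e1]
  have e2 := sum_dist (fun e : ℕ => Real.log ((n - e : ℕ) : ℝ)) n
  rw [← Fin.sum_univ_eq_sum_range (fun i => ∑ j ∈ range n,
    (fun e : ℕ => Real.log ((n - e : ℕ) : ℝ)) (((i : ℕ) : ℤ) - ((j : ℕ) : ℤ)).natAbs)] at e2
  have e3 : ∀ i : ℕ, ∑ j ∈ range n,
    (fun e : ℕ => Real.log ((n - e : ℕ) : ℝ)) (((i : ℕ) : ℤ) - ((j : ℕ) : ℤ)).natAbs =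
      ∑ j : Fin n, (fun e : ℕ => Real.log ((n - e : ℕ) : ℝ))
        (((i : ℕ) : ℤ) - (((j : Fin n) : ℕ) : ℤ)).natAbs := fun i =>
    (Fin.sum_univ_eq_sum_range (fun j => (fun e : ℕ => Real.log ((n - e : ℕ) : ℝ))
      (((i : ℕ) : ℤ) - ((j : ℕ) : ℤ)).natAbs) n).symm
  simp only [e3] at e2
  rw [e2]
  simp only [Nat.sub_zero]
  congr 2
  rw [← Finset.sum_range_reflect]
  refine Finset.sum_congr rfl fun e he => ?_
  rw [mem_range] at he
  have e4 : n - (n - 1 - e + 1) = e := by omega
  rw [e4]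
  congr 1
  have e5 : ((n - 1 - e : ℕ) : ℝ) = (n : ℝ) - 1 - e := by
    rw [Nat.cast_sub (by omega), Nat.cast_sub (by omega)]
    push_cast
    ring
  rw [e5]
  ring

/-- The entropy of `u - v`. -/
lemma H_diff {n : ℕ} (hn : 0 < n) :
    H (unif (Fin n × Fin n)) (fun z : Fin n × Fin n => ((z.1 : ℕ) : ℚ) - ((z.2 : ℕ) : ℚ)) =
      2 * Real.log n - gam n := by
  have : Nonempty (Fin n) := ⟨⟨0, hn⟩⟩
  rw [H_eq_mn, mn_diff hn, Fintype.card_prod, Fintype.card_fin]
  push_cast
  rw [Real.log_mul (by exact_mod_cast hn.ne') (by exact_mod_cast hn.ne')]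
  ring

lemma gam_pos {n : ℕ} (hn : 2 ≤ n) : 0 < gam n := by
  unfold gam
  have h1 : (0 : ℝ) < Real.log n := Real.log_pos (by exact_mod_cast hn)
  have h2 : (0 : ℝ) ≤ ∑ m ∈ range n, (m : ℝ) * Real.log m :=
    Finset.sum_nonneg fun m _ => mul_nonneg (Nat.cast_nonneg _) (Real.log_natCast_nonneg m)
  have h3 : (0 : ℝ) < n := by exact_mod_cast (by omega : 0 < n)
  positivity

/-- `gam n ≥ log (n / 2)`. -/
lemma gam_ge {n : ℕ} (hn : 0 < n) : Real.log n - Real.log 2 ≤ gam n := by
  have : Nonempty (Fin n) := ⟨⟨0, hn⟩⟩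
  have h1 := H_le_log_card (unif_law (Fin n × Fin n))
    (fun z : Fin n × Fin n => ((z.1 : ℕ) : ℤ) - ((z.2 : ℕ) : ℤ))
    (Finset.Icc (-(n : ℤ) + 1) ((n : ℤ) - 1)) (fun z _ => by
      have h1 := z.1.2
      have h2 := z.2.2
      rw [Finset.mem_Icc]
      constructor <;> omega)
  have h2 : H (unif (Fin n × Fin n)) (fun z : Fin n × Fin n => ((z.1 : ℕ) : ℤ) - ((z.2 : ℕ) : ℤ)) =
      2 * Real.log n - gam n := by
    rw [← H_diff hn]
    refine H_congr (unif_law _) (fun x y _ _ h => ?_) (fun x y _ _ h => ?_)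
    · exact_mod_cast h
    · exact_mod_cast h
  rw [h2, Int.card_Icc] at h1
  have h3 : Real.log (((n : ℤ) - 1 + 1 - (-(n : ℤ) + 1)).toNat : ℕ) ≤ Real.log (2 * n) := by
    have h4 : (((n : ℤ) - 1 + 1 - (-(n : ℤ) + 1)).toNat : ℕ) = 2 * n - 1 := by omega
    rw [h4]
    refine Real.log_le_log ?_ ?_
    · exact_mod_cast (by omega : 0 < 2 * n - 1)
    · exact_mod_cast (by omega : 2 * n - 1 ≤ 2 * n)
  rw [Real.log_mul (by norm_num) (by exact_mod_cast hn.ne')] at h3
  linarith

/-- Two coordinates of a uniform word. -/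
lemma im_two {n N : ℕ} (hn : 0 < n) {k l : Fin N} (hkl : k ≠ l) :
    have : Nonempty (Fin n) := ⟨⟨0, hn⟩⟩
    im (unif (Fin N → Fin n)) (fun w => (w k, w l)) = unif (Fin n × Fin n) := by
  have : Nonempty (Fin n) := ⟨⟨0, hn⟩⟩
  funext ab
  obtain ⟨a, b⟩ := ab
  have e0 : ∀ (P : (Fin N → Fin n) → Prop) (c : ℝ),
      (∑ x, if P x then c else 0) = ((univ.filter P).card : ℝ) * c := by
    intro P c
    rw [← Finset.sum_filter, Finset.sum_const, nsmul_eq_mul]
  rw [im_eq_sum]
  refine (e0 (fun w => (w k, w l) = (a, b)) (1 / (Fintype.card (Fin N → Fin n) : ℝ))).trans ?_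
  show _ = 1 / ((Fintype.card (Fin n × Fin n) : ℕ) : ℝ)
  have e1 : (univ.filter fun w : Fin N → Fin n => (w k, w l) = (a, b)) =
      Fintype.piFinset fun i => if i = k then {a} else if i = l then {b} else univ := by
    ext w
    simp only [mem_filter, mem_univ, true_and, Fintype.mem_piFinset, Prod.mk.injEq]
    constructor
    · rintro ⟨h1, h2⟩ i
      by_cases hi : i = k
      · rw [if_pos hi, hi, h1]; exact mem_singleton_self _
      · rw [if_neg hi]
        by_cases hj : i = l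
        · rw [if_pos hj, hj, h2]; exact mem_singleton_self _
        · rw [if_neg hj]; exact mem_univ _
    · intro h
      have h1 := h k
      have h2 := h l
      rw [if_pos rfl, mem_singleton] at h1
      rw [if_neg (Ne.symm hkl), if_pos rfl, mem_singleton] at h2
      exact ⟨h1, h2⟩
  have e2 : (univ.filter fun w : Fin N → Fin n => (w k, w l) = (a, b)).card * (n * n) = n ^ N := by
    rw [e1, Fintype.card_piFinset]
    have e3 : (∏ i : Fin N, ((if i = k then {a} else if i = l then {b} else univ :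
        Finset (Fin n))).card) = ∏ i ∈ (univ.erase k).erase l, n := by
      rw [← Finset.mul_prod_erase _ _ (mem_univ k), ← Finset.mul_prod_erase _ _
        (mem_erase.2 ⟨Ne.symm hkl, mem_univ l⟩)]
      rw [if_pos rfl, if_neg (Ne.symm hkl), if_pos rfl, card_singleton, card_singleton, one_mul,
        one_mul]
      refine Finset.prod_congr rfl fun i hi => ?_
      rw [mem_erase, mem_erase] at hi
      rw [if_neg hi.2.1, if_neg hi.1, card_univ, Fintype.card_fin]
    rw [e3, Finset.prod_const, card_erase_of_mem (mem_erase.2 ⟨Ne.symm hkl, mem_univ l⟩),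
      card_erase_of_mem (mem_univ k), card_univ, Fintype.card_fin]
    have hN : 2 ≤ N := by
      by_contra h
      exact hkl (by
        have h1 := k.2
        have h2 := l.2
        exact Fin.ext (by omega))
    rw [← pow_two, ← pow_add]
    congr 1
    omega
  have e4 : (Fintype.card (Fin N → Fin n) : ℝ) = (n : ℝ) ^ N := by
    rw [Fintype.card_pi, Finset.prod_const, card_univ, Fintype.card_fin, Fintype.card_fin]
    push_cast
    rfl
  rw [e4, Fintype.card_prod, Fintype.card_fin]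
  have e5 : (((univ.filter fun w : Fin N → Fin n => (w k, w l) = (a, b)).card : ℕ) : ℝ) *
      ((n : ℝ) * n) = (n : ℝ) ^ N := by exact_mod_cast e2
  have hn' : (0 : ℝ) < n := by exact_mod_cast hn
  rw [← e5]
  push_cast
  have e6 : (0 : ℝ) < ((univ.filter fun w : Fin N → Fin n => (w k, w l) = (a, b)).card : ℝ) := by
    by_contra h
    have h0 : ((univ.filter fun w : Fin N → Fin n => (w k, w l) = (a, b)).card : ℝ) = 0 :=
      le_antisymm (not_lt.1 h) (by positivity)
    rw [h0, zero_mul] at e5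
    have : (0 : ℝ) < (n : ℝ) ^ N := by positivity
    linarith
  field_simp
  exact congrArg Nat.cast (card_filter_inst _ _ _ _)

lemma im_bij {Ω : Type} [Fintype Ω] [Nonempty Ω] {φ : Ω → Ω} (hφ : Function.Bijective φ) :
    im (unif Ω) φ = unif Ω := by
  funext y
  obtain ⟨x, rfl⟩ := hφ.2 y
  rw [im_unif]
  have : mm φ x = 1 := by
    unfold mm
    rw [Finset.card_eq_one]
    refine ⟨x, ?_⟩
    ext z
    simp [hφ.1.eq_iff]
  rw [this]
  unfold unif
  simp

/-- The entropy of `w k - ε w l`. -/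
lemma H_two {n N : ℕ} (hn : 0 < n) {k l : Fin N} (hkl : k ≠ l) {ε : ℚ} (hε : ε = 1 ∨ ε = -1) :
    have : Nonempty (Fin n) := ⟨⟨0, hn⟩⟩
    H (unif (Fin N → Fin n)) (fun w => ((w k : ℕ) : ℚ) - ε * ((w l : ℕ) : ℚ)) =
      2 * Real.log n - gam n := by
  have : Nonempty (Fin n) := ⟨⟨0, hn⟩⟩
  have h1 := H_map (im_two hn hkl) (fun z : Fin n × Fin n =>
    ((z.1 : ℕ) : ℚ) - ε * ((z.2 : ℕ) : ℚ))
  refine h1.trans ?_
  rcases hε with rfl | rfl
  · rw [← H_diff hn]
    simp
  · rw [← H_diff hn]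
    have h2 : im (unif (Fin n × Fin n)) (fun z : Fin n × Fin n => (z.1, z.2.rev)) =
        unif (Fin n × Fin n) := by
      refine im_bij (φ := fun z : Fin n × Fin n => (z.1, z.2.rev)) ?_
      constructor
      · intro z w h
        have h3 := congrArg Prod.fst h
        have h4 := congrArg Prod.snd h
        exact Prod.ext h3 (Fin.rev_injective h4)
      · intro z
        exact ⟨(z.1, z.2.rev), by simp⟩
    have h3 := H_map h2 (fun z : Fin n × Fin n => ((z.1 : ℕ) : ℚ) - ((z.2 : ℕ) : ℚ))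
    rw [← h3]
    refine H_congr (unif_law _) (fun x y _ _ h => ?_) (fun x y _ _ h => ?_)
    · dsimp only at h ⊢
      rw [Fin.val_rev, Fin.val_rev]
      have hx := x.2.2
      have hy := y.2.2
      rw [Nat.cast_sub (by omega), Nat.cast_sub (by omega)]
      push_cast
      linarith
    · dsimp only at h ⊢
      rw [Fin.val_rev, Fin.val_rev] at h
      have hx := x.2.2
      have hy := y.2.2
      rw [Nat.cast_sub (by omega), Nat.cast_sub (by omega)] at h
      push_cast at h
      linarith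

/-- Subadditivity for a finite number of functions. -/
lemma H_le_sum {Ω : Type} [Fintype Ω] {p : Ω → ℝ} (hp : IsLaw p) {ι α : Type}
    (s : Finset ι) {β : Type} (q : ι → Ω → β) (f : Ω → α)
    (h : ∀ x y, (∀ i ∈ s, q i x = q i y) → f x = f y) :
    H p f ≤ ∑ i ∈ s, H p (q i) := by
  induction s using Finset.induction_on generalizing α with
  | empty =>
    rw [Finset.sum_empty]
    have h1 : H p f ≤ H p (fun _ => ()) := H_mono hp fun x y _ _ _ => h x y (by simp)
    rw [H_const hp] at h1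
    exact h1
  | insert a s ha ih =>
    rw [Finset.sum_insert ha]
    have h1 := ih (fun x => fun i : s => q i x) (fun x y hxy => by
      funext i
      exact hxy i.1 i.2)
    have h2 : H p f ≤ H p (q a) + H p (fun x => fun i : s => q i x) := by
      refine subadd hp fun x y _ _ hxy => h x y fun i hi => ?_
      rcases Finset.mem_insert.1 hi with rfl | hi
      · exact congrArg Prod.fst hxy
      · exact congrFun (congrArg Prod.snd hxy) ⟨i, hi⟩
    linarith

end Pool.Agent.Helper20.GS
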