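import Pool.Agent.Helper20.GS.Pieces

/-!
# Digits: injectivity and entropies of differences
-/

set_option autoImplicit false
set_option linter.unusedSectionVars false

open Finset
open scoped Classical

namespace Pool.Agent.Helper20.GS
open Pool.Agent.W904.AK

/-- Digit expansions in base `p / q` with small digits are unique. -/
lemma digits_zero {p q : ℤ} (hpq : IsCoprime p q) (hp : p ≠ 0) (hq : q ≠ 0) {n : ℕ}
    (hn : (n : ℤ) ≤ |p|) (N : ℕ) (δ : Fin N → ℤ) (hδ : ∀ k, |δ k| < n)
    (h : ∑ k, (δ k : ℚ) * ((p : ℚ) / q) ^ (k : ℕ) = 0) : ∀ k, δ k = 0 := by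
  have hp' : (p : ℚ) ≠ 0 := by exact_mod_cast hp
  have hq' : (q : ℚ) ≠ 0 := by exact_mod_cast hq
  induction N with
  | zero => exact fun k => k.elim0
  | succ N ih =>
    rw [Fin.sum_univ_succ] at h
    simp only [Fin.val_zero, pow_zero, mul_one, Fin.val_succ, pow_succ] at h
    set R : ℚ := ∑ k : Fin N, (δ k.succ : ℚ) * ((p : ℚ) / q) ^ (k : ℕ) with hR
    have h1 : (δ 0 : ℚ) + (p : ℚ) / q * R = 0 := by
      rw [← h, hR, Finset.mul_sum]
      congr 1
      refine Finset.sum_congr rfl fun k _ => ?_
      ring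
    set z : ℤ := ∑ k : Fin N, δ k.succ * (p ^ (k : ℕ) * q ^ (N - (k : ℕ))) with hz
    have h2 : (z : ℚ) = (q : ℚ) ^ N * R := by
      rw [hz, hR, Finset.mul_sum]
      push_cast
      refine Finset.sum_congr rfl fun k _ => ?_
      have hk : (k : ℕ) ≤ N := k.2.le
      have e : (q : ℚ) ^ N = q ^ (N - (k : ℕ)) * q ^ (k : ℕ) := by
        rw [← pow_add, Nat.sub_add_cancel hk]
      rw [e, div_pow]
      field_simp
    have h3 : δ 0 * q ^ (N + 1) = p * -z := by
      have : (δ 0 : ℚ) * (q : ℚ) ^ (N + 1) = p * -z := by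
        have e : (δ 0 : ℚ) = -((p : ℚ) / q * R) := by linarith
        rw [e, h2, pow_succ]
        field_simp
      exact_mod_cast this
    have h4 : p ∣ δ 0 := by
      have h5 : p ∣ δ 0 * q ^ (N + 1) := ⟨_, h3⟩
      exact (hpq.pow_right).dvd_of_dvd_mul_right h5
    have h6 : δ 0 = 0 := by
      by_contra h7
      have := Int.le_of_dvd (abs_pos.2 h7) ((abs_dvd_abs p (δ 0)).2 h4)
      have := hδ 0
      omega
    have h8 : R = 0 := by
      rw [h6] at h1
      push_cast at h1
      rw [zero_add] at h1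
      rcases mul_eq_zero.1 h1 with h9 | h9
      · exact absurd h9 (div_ne_zero hp' hq')
      · exact h9
    have h10 := ih (fun k => δ k.succ) (fun k => hδ k.succ) h8
    intro k
    exact Fin.cases h6 h10 k

/-- Digit expansions in base `g`. -/
lemma digits_inj (g : ℚ) {n : ℕ} (hn : 2 ≤ n) (hg : n ≤ max g.num.natAbs g.den) (N : ℕ) :
    Function.Injective fun w : Fin N → Fin n => ∑ k, ((w k : ℕ) : ℚ) * g ^ (k : ℕ) := by
  intro v w h
  dsimp only at h
  have hd : (g.den : ℤ) ≠ 0 := by exact_mod_cast g.den_ne_zero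
  have hcop : IsCoprime g.num (g.den : ℤ) := by
    rw [Int.isCoprime_iff_gcd_eq_one]
    simpa [Int.gcd] using g.reduced
  set δ : Fin N → ℤ := fun k => ((v k : ℕ) : ℤ) - ((w k : ℕ) : ℤ) with hδ
  have hb : ∀ k, |δ k| < n := by
    intro k
    have h1 := (v k).2
    have h2 := (w k).2
    rw [abs_lt]
    simp only [hδ]
    constructor <;> omega
  have hs : ∑ k, (δ k : ℚ) * g ^ (k : ℕ) = 0 := by
    simp only [hδ]
    push_cast
    simp only [sub_mul, Finset.sum_sub_distrib]
    rw [h, sub_self]
  have key : ∀ k, δ k = 0 := by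
    by_cases hnum : (n : ℤ) ≤ |g.num|
    · have hnz : g.num ≠ 0 := by
        intro h0
        rw [h0, abs_zero] at hnum
        omega
      refine digits_zero hcop hnz hd hnum N δ hb ?_
      have : ((g.num : ℤ) : ℚ) / ((g.den : ℤ) : ℚ) = g := by
        push_cast
        exact Rat.num_div_den g
      rw [this]
      exact hs
    · have hden : (n : ℤ) ≤ |(g.den : ℤ)| := by
        rw [Nat.abs_cast]
        rw [← Int.natCast_natAbs] at hnum
        have : ¬ n ≤ g.num.natAbs := by exact_mod_cast hnum
        have : n ≤ g.den := by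
          rcases le_max_iff.1 hg with h | h
          · exact absurd h this
          · exact h
        exact_mod_cast this
      by_cases hg0 : g = 0
      · exfalso
        rw [hg0] at hden
        simp at hden
        omega
      have hnz : g.num ≠ 0 := Rat.num_ne_zero.2 hg0
      have h5 := digits_zero hcop.symm hd hnz hden N (fun k => δ k.rev) (fun k => hb _) (by
        have e : ((g.den : ℤ) : ℚ) / ((g.num : ℤ) : ℚ) = g⁻¹ := by
          have e0 : (g.num : ℚ) / (g.den : ℚ) = g := Rat.num_div_den g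
          have e1 : ((g.den : ℤ) : ℚ) = (g.den : ℚ) := by push_cast; rfl
          rw [e1]
          conv_rhs => rw [← e0]
          rw [inv_div]
        rw [e]
        rw [← Equiv.sum_comp Fin.revPerm]
        simp only [Fin.revPerm_apply, Fin.rev_rev]
        have e2 : ∀ k : Fin N, (δ k : ℚ) * g⁻¹ ^ (k.rev : ℕ) =
            (δ k * g ^ (k : ℕ)) * (g⁻¹) ^ (N - 1) := by
          intro k
          have hk := k.2
          have : N - 1 = (k.rev : ℕ) + (k : ℕ) := by rw [Fin.val_rev]; omega
          rw [this, pow_add, mul_assoc, mul_comm (g⁻¹ ^ (k.rev : ℕ)), ← mul_assoc (g ^ (k : ℕ)),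
            ← mul_pow, mul_inv_cancel₀ hg0, one_pow, one_mul]
        rw [Finset.sum_congr rfl fun k _ => e2 k, ← Finset.sum_mul, hs, zero_mul])
      intro k
      have := h5 k.rev
      simpa using this
  funext k
  have := key k
  simp only [hδ] at this
  exact Fin.ext (by omega)

end Pool.Agent.Helper20.GS
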