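import Pool.Agent.Helper20.GS.Typ

/-!
# Finite families of lines, their sums, and the cardinality form
-/

set_option autoImplicit false
set_option linter.unusedSectionVars false

open Finset
open scoped Classical

namespace Pool.Agent.Helper20.GS
open Pool.Agent.W904.AK

/-- A finite family of lines `X + t D`, each determined by its direction. -/
structure Gad where
  /-- the index set -/
  Ω : Type
  [fin : Fintype Ω]
  [ne : Nonempty Ω]
  /-- the points at height `0` -/
  X : Ω → ℚ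
  /-- the directions -/
  D : Ω → ℚ
  inj : Function.Injective D

attribute [instance] Gad.fin Gad.ne

/-- The logarithm of the number of lines. -/
noncomputable def Gad.L (G : Gad) : ℝ := Real.log (Fintype.card G.Ω)

/-- The entropy of the points at height `t`. -/
noncomputable def Gad.h (G : Gad) (t : ℚ) : ℝ := H (unif G.Ω) (fun x => G.X x + t * G.D x)

lemma Gad.L_nonneg (G : Gad) : 0 ≤ G.L :=
  Real.log_nonneg (by exact_mod_cast (Fintype.card_pos : 0 < Fintype.card G.Ω))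

lemma H_unif_le {Ω : Type} [Fintype Ω] [Nonempty Ω] {α : Type} (f : Ω → α) :
    H (unif Ω) f ≤ Real.log (Fintype.card Ω) := by
  rw [← H_unif Ω (Function.injective_id : Function.Injective (id : Ω → Ω))]
  exact H_mono (unif_law Ω) fun x y _ _ h => by rw [show x = y from h]

lemma Gad.h_le (G : Gad) (t : ℚ) : G.h t ≤ G.L := H_unif_le _

lemma Gad.h_nonneg (G : Gad) (t : ℚ) : 0 ≤ G.h t := H_nonneg (unif_law _) _

lemma prodLaw_unif (Ω₁ Ω₂ : Type) [Fintype Ω₁] [Fintype Ω₂] [Nonempty Ω₁] [Nonempty Ω₂] :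
    prodLaw (unif Ω₁) (unif Ω₂) = unif (Ω₁ × Ω₂) := by
  funext z
  unfold prodLaw glue
  rw [if_pos rfl, im_unit (unif_law Ω₁)]
  unfold unif
  rw [Fintype.card_prod]
  push_cast
  field_simp

/-- There is a multiplier which separates two finite sets. -/
lemma exists_sep (V W : Finset ℚ) :
    ∃ K : ℚ, ∀ a ∈ V, ∀ b ∈ V, ∀ c ∈ W, ∀ d ∈ W, a + K * c = b + K * d → a = b ∧ c = d := by
  set Z : Finset ℚ := ((V ×ˢ V) ×ˢ (W ×ˢ W)).image fun z => (z.1.1 - z.1.2) / (z.2.1 - z.2.2)
    with hZ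
  obtain ⟨K, hK⟩ := Infinite.exists_notMem_finset Z
  refine ⟨K, fun a ha b hb c hc d hd h => ?_⟩
  by_cases hcd : c = d
  · subst hcd
    exact ⟨by linarith, rfl⟩
  · exfalso
    apply hK
    rw [hZ, mem_image]
    refine ⟨((b, a), (c, d)), by simp [ha, hb, hc, hd], ?_⟩
    have : c - d ≠ 0 := sub_ne_zero.2 hcd
    dsimp only
    rw [div_eq_iff this]
    linarith

/-- The sum of two families. -/
theorem Gad.add (G₁ G₂ : Gad) :
    ∃ G : Gad, G.L = G₁.L + G₂.L ∧ ∀ t, G.h t ≤ G₁.h t + G₂.h t := by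
  obtain ⟨K, hK⟩ := exists_sep (univ.image G₁.D) (univ.image G₂.D)
  refine ⟨{ Ω := G₁.Ω × G₂.Ω
            X := fun z => G₁.X z.1 + K * G₂.X z.2
            D := fun z => G₁.D z.1 + K * G₂.D z.2
            inj := fun z w h => ?_ }, ?_, fun t => ?_⟩
  · obtain ⟨h1, h2⟩ := hK (G₁.D z.1) (by simp) (G₁.D w.1) (by simp) (G₂.D z.2) (by simp)
      (G₂.D w.2) (by simp) h
    exact Prod.ext (G₁.inj h1) (G₂.inj h2)
  · unfold Gad.L
    dsimp only
    rw [Fintype.card_prod]
    push_cast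
    exact Real.log_mul (by exact_mod_cast Fintype.card_ne_zero)
      (by exact_mod_cast Fintype.card_ne_zero)
  · unfold Gad.h
    dsimp only
    rw [← H_prod (unif_law G₁.Ω) (unif_law G₂.Ω) (fun x => G₁.X x + t * G₁.D x)
      (fun x => G₂.X x + t * G₂.D x), prodLaw_unif]
    refine H_mono (unif_law _) fun z w _ _ h => ?_
    have h1 := congrArg Prod.fst h
    have h2 := congrArg Prod.snd h
    dsimp only at h1 h2 ⊢
    linear_combination h1 + K * h2

/-- The empty sum. -/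
theorem Gad.zero : ∃ G : Gad, G.L = 0 ∧ ∀ t, G.h t ≤ 0 := by
  refine ⟨{ Ω := Unit, X := fun _ => 0, D := fun _ => 0, inj := fun _ _ _ => rfl }, ?_, fun t => ?_⟩
  · unfold Gad.L
    simp
  · refine (Gad.h_le _ t).trans ?_
    unfold Gad.L
    simp

theorem Gad.nsmul (G₁ : Gad) (n : ℕ) :
    ∃ G : Gad, G.L = n * G₁.L ∧ ∀ t, G.h t ≤ n * G₁.h t := by
  induction n with
  | zero => simpa using Gad.zero
  | succ n ih =>
    obtain ⟨G, h1, h2⟩ := ih
    obtain ⟨G', h3, h4⟩ := Gad.add G G₁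
    refine ⟨G', ?_, fun t => ?_⟩
    · rw [h3, h1]; push_cast; ring
    · have := h4 t
      have := h2 t
      push_cast
      linarith

theorem Gad.sum {ι : Type} (s : Finset ι) (G₁ : ι → Gad) (n : ι → ℕ) :
    ∃ G : Gad, G.L = ∑ i ∈ s, n i * (G₁ i).L ∧ ∀ t, G.h t ≤ ∑ i ∈ s, n i * (G₁ i).h t := by
  induction s using Finset.induction_on with
  | empty => simpa using Gad.zero
  | insert a s ha ih =>
    obtain ⟨G, h1, h2⟩ := ih
    obtain ⟨G', h3, h4⟩ := Gad.nsmul (G₁ a) (n a)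
    obtain ⟨G'', h5, h6⟩ := Gad.add G' G
    refine ⟨G'', ?_, fun t => ?_⟩
    · rw [h5, h3, h1, Finset.sum_insert ha]
    · rw [Finset.sum_insert ha]
      have := h6 t
      have := h4 t
      have := h2 t
      linarith

/-- A linear functional which is injective on a finite set of vectors. -/
lemma exists_functional {N : ℕ} (V : Finset (Fin N → ℚ)) :
    ∃ c : Fin N → ℚ, ∀ v ∈ V, ∀ w ∈ V, ∑ i, c i * v i = ∑ i, c i * w i → v = w := by
  induction N with
  | zero => exact ⟨fun _ => 0, fun v _ w _ _ => Subsingleton.elim _ _⟩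
  | succ N ih =>
    obtain ⟨c, hc⟩ := ih (V.image fun v => fun i => v i.succ)
    obtain ⟨K, hK⟩ := exists_sep (V.image fun v => v 0)
      (V.image fun v => ∑ i : Fin N, c i * v i.succ)
    refine ⟨Fin.cons 1 fun i => K * c i, fun v hv w hw h => ?_⟩
    simp only [Fin.sum_univ_succ, Fin.cons_zero, Fin.cons_succ, one_mul, mul_assoc,
      ← Finset.mul_sum] at h
    obtain ⟨h1, h2⟩ := hK _ (mem_image_of_mem _ hv) _ (mem_image_of_mem _ hw) _
      (mem_image_of_mem _ hv) _ (mem_image_of_mem _ hw) h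
    have h3 := hc _ (mem_image_of_mem _ hv) _ (mem_image_of_mem _ hw) h2
    funext i
    refine Fin.cases h1 (fun i => ?_) i
    exact congrFun h3 i

/-- From entropies to cardinalities. -/
theorem Gad.expo (G : Gad) (T : Finset ℚ) (κ : ℝ) (hκ : 0 ≤ κ) (h : ∀ t ∈ T, κ * G.h t < G.L)
    (C : ℝ) : ∃ A : Finset (ℚ × ℚ), A.Nonempty ∧
      ∀ t ∈ T, C * ((A.image fun z => z.1 + t * z.2).card : ℝ) ^ κ < (A.image Prod.snd).card := by
  have hc := cardΩ (Ω := G.Ω)
  obtain ⟨ε, hε, h1⟩ : ∃ ε : ℝ, 0 < ε ∧ ∀ t ∈ T, κ * G.h t + ε ≤ G.L := by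
    rcases T.eq_empty_or_nonempty with hT | hT
    · exact ⟨1, one_pos, by simp [hT]⟩
    · obtain ⟨t₀, ht₀, hmax⟩ := T.exists_max_image (fun t => κ * G.h t) hT
      refine ⟨G.L - κ * G.h t₀, by have := h t₀ ht₀; linarith, fun t ht => ?_⟩
      have := hmax t ht
      linarith
  set δ : ℝ := ε / (2 * (κ + 1)) with hδ
  have hδ0 : 0 < δ := by positivity
  have hδ1 : κ * δ ≤ ε / 2 := by
    rw [hδ, mul_div_assoc', div_le_div_iff₀ (by positivity) (by norm_num)]
    nlinarith
  obtain ⟨N₀, hN₀⟩ := typical (Ω := G.Ω) (J := T) (fun t x => G.X x + t.1 * G.D x) hδ0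
  obtain ⟨N₁, hN₁⟩ := exists_nat_gt (2 * |C| / (ε / 2))
  obtain ⟨N, hNa, hNb⟩ : ∃ N, N₀ ≤ N ∧ N₁ ≤ N := ⟨max N₀ N₁, le_max_left _ _, le_max_right _ _⟩
  obtain ⟨𝒢, hG1, hG2⟩ := hN₀ N hNa
  have hNC : 2 * |C| < N * (ε / 2) := by
    rw [← div_lt_iff₀ (by positivity)]
    exact hN₁.trans_le (by exact_mod_cast hNb)
  obtain ⟨c, hc'⟩ := exists_functional (univ.image fun w : Fin N → G.Ω => fun i => G.D (w i))
  have hinj : Function.Injective fun w : Fin N → G.Ω => ∑ i, c i * G.D (w i) := by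
    intro v w hvw
    have := hc' _ (mem_image_of_mem _ (mem_univ v)) _ (mem_image_of_mem _ (mem_univ w)) hvw
    funext i
    exact G.inj (congrFun this i)
  have hpos : (0 : ℝ) < (Fintype.card G.Ω : ℝ) ^ N := by positivity
  have hGne : 𝒢.Nonempty := by
    rw [← card_pos]
    have : (0 : ℝ) < 𝒢.card := by linarith
    exact_mod_cast this
  refine ⟨𝒢.image fun w => (∑ i, c i * G.X (w i), ∑ i, c i * G.D (w i)), hGne.image _,
    fun t ht => ?_⟩
  have e1 : ((𝒢.image fun w => (∑ i, c i * G.X (w i), ∑ i, c i * G.D (w i))).image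
      Prod.snd).card = 𝒢.card := by
    rw [image_image]
    exact card_image_of_injective _ hinj
  have e2 : ((𝒢.image fun w => (∑ i, c i * G.X (w i), ∑ i, c i * G.D (w i))).image
      fun z => z.1 + t * z.2).card ≤ (𝒢.image fun w i => G.X (w i) + t * G.D (w i)).card := by
    have : ((𝒢.image fun w => (∑ i, c i * G.X (w i), ∑ i, c i * G.D (w i))).image
      fun z => z.1 + t * z.2) = (𝒢.image fun w i => G.X (w i) + t * G.D (w i)).image
        fun v => ∑ i, c i * v i := by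
      rw [image_image, image_image]
      refine image_congr fun w _ => ?_
      simp only [Function.comp, Finset.mul_sum]
      rw [← Finset.sum_add_distrib]
      refine Finset.sum_congr rfl fun i _ => ?_
      ring
    rw [this]
    exact card_image_le
  rw [e1]
  have h2 : ((𝒢.image fun w i => G.X (w i) + t * G.D (w i)).card : ℝ) ≤
      Real.exp (N * (G.h t + δ)) := by
    have h0 := hG2 ⟨t, ht⟩
    refine le_trans (le_of_eq ?_) h0
    exact congrArg Nat.cast (card_image_inst _ _ _ _)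
  have e2' : (((𝒢.image fun w => (∑ i, c i * G.X (w i), ∑ i, c i * G.D (w i))).image
      fun z => z.1 + t * z.2).card : ℝ) ≤ Real.exp (N * (G.h t + δ)) :=
    le_trans (by exact_mod_cast e2) h2
  have ha0 : (0 : ℝ) ≤ (((𝒢.image fun w => (∑ i, c i * G.X (w i), ∑ i, c i * G.D (w i))).image
      fun z => z.1 + t * z.2).card : ℝ) := by positivity
  generalize (((𝒢.image fun w => (∑ i, c i * G.X (w i), ∑ i, c i * G.D (w i))).image
      fun z => z.1 + t * z.2).card : ℝ) = a at e2' ha0 ⊢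
  have h3 : 0 ≤ a → a ^ κ ≤ Real.exp (N * (G.L - ε / 2)) := by
    intro ha
    refine (Real.rpow_le_rpow ha e2' hκ).trans ?_
    rw [← Real.exp_mul]
    refine Real.exp_le_exp.2 ?_
    have h4 := h1 t ht
    have h5 : κ * (G.h t + δ) ≤ G.L - ε / 2 := by rw [mul_add]; linarith
    have h6 : (0 : ℝ) ≤ N := by positivity
    have h7 := mul_le_mul_of_nonneg_left h5 h6
    calc (N : ℝ) * (G.h t + δ) * κ = N * (κ * (G.h t + δ)) := by ring
      _ ≤ _ := h7
  have h4 : Real.exp (N * (G.L - ε / 2)) = (Fintype.card G.Ω : ℝ) ^ N * Real.exp (-(N * (ε / 2))) := by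
    rw [mul_sub, sub_eq_add_neg, Real.exp_add]
    unfold Gad.L
    rw [← Real.log_pow, Real.exp_log hpos]
  have h5 : |C| * Real.exp (-(N * (ε / 2))) < 1 / 2 := by
    rw [Real.exp_neg]
    have h6 : (N : ℝ) * (ε / 2) + 1 ≤ Real.exp (N * (ε / 2)) := Real.add_one_le_exp _
    have h7 : 0 < Real.exp (N * (ε / 2)) := Real.exp_pos _
    rw [← div_eq_mul_inv, div_lt_iff₀ h7]
    linarith
  calc C * a ^ κ ≤ |C| * a ^ κ := mul_le_mul_of_nonneg_right (le_abs_self C) (by positivity)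
    _ ≤ |C| * ((Fintype.card G.Ω : ℝ) ^ N * Real.exp (-(N * (ε / 2)))) := by
        rw [← h4]
        exact mul_le_mul_of_nonneg_left (h3 ha0) (abs_nonneg C)
    _ = (Fintype.card G.Ω : ℝ) ^ N * (|C| * Real.exp (-(N * (ε / 2)))) := by ring
    _ < (Fintype.card G.Ω : ℝ) ^ N * (1 / 2) := mul_lt_mul_of_pos_left h5 hpos
    _ ≤ 𝒢.card := by linarith

end Pool.Agent.Helper20.GS
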