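import Pool.Agent.Helper20.GS.Dif

/-!
# Geometric progressions
-/

set_option autoImplicit false
set_option linter.unusedSectionVars false

open Finset
open scoped Classical

namespace Pool.Agent.Helper20.GS
open Pool.Agent.W904.AK

/-- The partner of a position. -/
def pt (N : ℕ) (j : ℤ) (k : Fin N) : Fin N :=
  if h : 0 ≤ (N : ℤ) - 1 - j - (k : ℕ) ∧ (N : ℤ) - 1 - j - (k : ℕ) < N then
    ⟨((N : ℤ) - 1 - j - (k : ℕ)).toNat, by omega⟩
  else k

lemma pt_pt (N : ℕ) (j : ℤ) (k : Fin N) : pt N j (pt N j k) = k := by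
  by_cases h : 0 ≤ (N : ℤ) - 1 - j - (k : ℕ) ∧ (N : ℤ) - 1 - j - (k : ℕ) < N
  · have e : pt N j k = ⟨((N : ℤ) - 1 - j - (k : ℕ)).toNat, by omega⟩ := by
      unfold pt; rw [dif_pos h]
    rw [e]
    unfold pt
    have hk := k.2
    rw [dif_pos (by dsimp only; omega)]
    apply Fin.ext
    dsimp only
    omega
  · have e : pt N j k = k := by
      unfold pt; rw [dif_neg h]
    rw [e, e]

lemma pt_val {N : ℕ} {j : ℤ} {k : Fin N} (h : pt N j k ≠ k) :
    ((pt N j k : ℕ) : ℤ) = (N : ℤ) - 1 - j - (k : ℕ) := by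
  unfold pt at h ⊢
  split_ifs at h ⊢ with h1
  · dsimp only
    omega
  · exact absurd rfl h

/-- The unpaired positions are few. -/
lemma card_fixed (N : ℕ) (j : ℤ) :
    (univ.filter fun k : Fin N => pt N j k = k).card ≤ 2 * j.natAbs + 1 := by
  have h1 : (univ.filter fun k : Fin N => pt N j k = k).image (fun k : Fin N => (k : ℕ)) ⊆
      (range j.natAbs ∪ Finset.Ico (N - j.natAbs) N) ∪ {((N : ℤ) - 1 - j).toNat / 2} := by
    intro x hx
    rw [mem_image] at hx
    obtain ⟨k, hk, rfl⟩ := hx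
    rw [mem_filter] at hk
    have hk2 := k.2
    have h2 := hk.2
    unfold pt at h2
    rw [mem_union, mem_union, mem_range, Finset.mem_Ico, mem_singleton]
    split_ifs at h2 with h3
    · have h4 := congrArg (fun z : Fin N => (z : ℕ)) h2
      dsimp only at h4
      right
      omega
    · left
      omega
  have h2 := (card_le_card h1).trans ((card_union_le _ _).trans (Nat.add_le_add_right
    (card_union_le _ _) _))
  rw [card_image_of_injective _ Fin.val_injective, card_range, Nat.card_Ico, card_singleton] at h2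
  omega

lemma card_lower (N : ℕ) (j : ℤ) :
    N = 2 * (univ.filter fun k : Fin N => k < pt N j k).card +
      (univ.filter fun k : Fin N => pt N j k = k).card := by
  have h1 : (univ.filter fun k : Fin N => k < pt N j k).card =
      (univ.filter fun k : Fin N => pt N j k < k).card := by
    refine Finset.card_bij (fun k _ => pt N j k) ?_ ?_ ?_
    · intro k hk
      rw [mem_filter] at hk ⊢
      refine ⟨mem_univ _, ?_⟩
      rw [pt_pt]
      exact hk.2
    · intro k _ l _ h
      rw [← pt_pt N j k, h, pt_pt]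
    · intro l hl
      rw [mem_filter] at hl
      refine ⟨pt N j l, ?_, pt_pt N j l⟩
      rw [mem_filter]
      refine ⟨mem_univ _, ?_⟩
      rw [pt_pt]
      exact hl.2
  have h2 : (univ : Finset (Fin N)) = ((univ.filter fun k : Fin N => k < pt N j k) ∪
      (univ.filter fun k : Fin N => pt N j k < k)) ∪
        (univ.filter fun k : Fin N => pt N j k = k) := by
    ext k
    simp only [mem_univ, mem_union, mem_filter, true_and, true_iff]
    rcases lt_trichotomy k (pt N j k) with h | h | h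
    · exact Or.inl (Or.inl h)
    · exact Or.inr h.symm
    · exact Or.inl (Or.inr h)
  have h3 : N = (univ : Finset (Fin N)).card := by simp
  conv_lhs => rw [h3, h2]
  rw [card_union_of_disjoint, card_union_of_disjoint, ← h1, two_mul]
  · rw [Finset.disjoint_filter]
    intro k _ h h'
    exact absurd h (not_lt.2 h'.le)
  · rw [Finset.disjoint_union_left, Finset.disjoint_filter, Finset.disjoint_filter]
    constructor
    · intro k _ h h'
      rw [h'] at h
      exact lt_irrefl _ h
    · intro k _ h h'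
      rw [h'] at h
      exact lt_irrefl _ h

/-- The functions which determine the point at height `a ± b g ^ j`. -/
def qf {N n : ℕ} (ε : ℚ) (j : ℤ) (k : Fin N) (w : Fin N → Fin n) : ℚ :=
  if k < pt N j k then ((w k : ℕ) : ℚ) - ε * ((w (pt N j k) : ℕ) : ℚ)
  else if pt N j k < k then 0 else ((w k : ℕ) : ℚ)

/-- The weights. -/
def wt (g ε : ℚ) (N : ℕ) (j : ℤ) (k : Fin N) : ℚ :=
  ε * g ^ (j + (k : ℕ)) - g ^ ((N : ℤ) - 1 - (k : ℕ))

lemma wt_pt {g ε : ℚ} (hε : ε = 1 ∨ ε = -1) {N : ℕ} {j : ℤ} {k : Fin N} (h : pt N j k ≠ k) :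
    wt g ε N j (pt N j k) = -(ε * wt g ε N j k) := by
  unfold wt
  have h1 := pt_val h
  rw [h1]
  have e1 : j + ((N : ℤ) - 1 - j - (k : ℕ)) = (N : ℤ) - 1 - (k : ℕ) := by ring
  have e2 : (N : ℤ) - 1 - ((N : ℤ) - 1 - j - (k : ℕ)) = j + (k : ℕ) := by ring
  rw [e1, e2]
  rcases hε with rfl | rfl <;> ring

lemma sum_wt {g ε : ℚ} (hε : ε = 1 ∨ ε = -1) {N n : ℕ} (j : ℤ) (w : Fin N → Fin n) :
    ∑ k, ((w k : ℕ) : ℚ) * wt g ε N j k = ∑ k, wt g ε N j k * qf ε j k w := by
  rw [← sub_eq_zero, ← Finset.sum_sub_distrib]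
  have hεε : ε * ε = 1 := by rcases hε with rfl | rfl <;> norm_num
  refine Finset.sum_involution (fun k _ => pt N j k) ?_ ?_ ?_ ?_
  · intro k _
    unfold qf
    rw [pt_pt]
    rcases lt_trichotomy k (pt N j k) with h | h | h
    · rw [if_pos h, if_neg (not_lt.2 h.le), if_pos h, wt_pt hε (Ne.symm h.ne)]
      ring
    · rw [← h]
      simp
      ring
    · rw [if_neg (not_lt.2 h.le), if_pos h, if_pos h, wt_pt hε h.ne]
      linear_combination (-(wt g ε N j k * ((w k : ℕ) : ℚ))) * hεε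
  · intro k _ h0 h1
    apply h0
    unfold qf
    rw [h1, if_neg (lt_irrefl _), if_neg (lt_irrefl _)]
    ring
  · intro k _
    exact mem_univ _
  · intro k _
    exact pt_pt N j k

/-- The family of lines. -/
noncomputable def gpG (a b g : ℚ) {n : ℕ} (hn : 2 ≤ n) (hg : n ≤ max g.num.natAbs g.den)
    (N : ℕ) : Gad :=
  haveI : Nonempty (Fin n) := ⟨⟨0, by omega⟩⟩
  { Ω := Fin N → Fin n
    X := fun w => -(a * ∑ k, ((w k : ℕ) : ℚ) * g ^ (k : ℕ)) -
      b * ∑ k, ((w k : ℕ) : ℚ) * g ^ ((N : ℤ) - 1 - (k : ℕ))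
    D := fun w => ∑ k, ((w k : ℕ) : ℚ) * g ^ (k : ℕ)
    inj := digits_inj g hn hg N }

lemma gpG_L (a b g : ℚ) {n : ℕ} (hn : 2 ≤ n) (hg : n ≤ max g.num.natAbs g.den) (N : ℕ) :
    (gpG a b g hn hg N).L = N * Real.log n := by
  unfold Gad.L gpG
  dsimp only
  rw [Fintype.card_pi, Finset.prod_const, card_univ, Fintype.card_fin, Fintype.card_fin]
  push_cast
  rw [Real.log_pow]

lemma gpG_h (a b g : ℚ) {n : ℕ} (hn : 2 ≤ n) (hg : n ≤ max g.num.natAbs g.den) (N : ℕ)
    {ε : ℚ} (hε : ε = 1 ∨ ε = -1) (j : ℤ) :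
    (gpG a b g hn hg N).h (a + ε * (b * g ^ j)) ≤
      N * Real.log n - ((N : ℝ) - 2 * j.natAbs - 1) / 2 * gam n := by
  have hne : Nonempty (Fin n) := ⟨⟨0, by omega⟩⟩
  have hg0 : g ≠ 0 := by
    rintro rfl
    simp at hg
    omega
  have hn0 : 0 < n := by omega
  have hlog : 0 ≤ Real.log n := Real.log_natCast_nonneg n
  have e0 : (gpG a b g hn hg N).h (a + ε * (b * g ^ j)) =
      H (unif (Fin N → Fin n)) (fun w => b * ∑ k, wt g ε N j k * qf ε j k w) := by
    unfold Gad.h
    congr 1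
    funext w
    change Fin N → Fin n at w
    have e2 := sum_wt (g := g) hε j w
    rw [← e2]
    unfold wt
    show -(a * ∑ k, ((w k : ℕ) : ℚ) * g ^ (k : ℕ)) -
      b * ∑ k, ((w k : ℕ) : ℚ) * g ^ ((N : ℤ) - 1 - (k : ℕ)) +
        (a + ε * (b * g ^ j)) * ∑ k, ((w k : ℕ) : ℚ) * g ^ (k : ℕ) = _
    have e1 : ∑ k, ((w k : ℕ) : ℚ) * (ε * g ^ (j + ((k : ℕ) : ℤ)) -
        g ^ ((N : ℤ) - 1 - ((k : ℕ) : ℤ))) =
        ε * g ^ j * ∑ k, ((w k : ℕ) : ℚ) * g ^ (k : ℕ) -
          ∑ k, ((w k : ℕ) : ℚ) * g ^ ((N : ℤ) - 1 - ((k : ℕ) : ℤ)) := by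
      rw [Finset.mul_sum, ← Finset.sum_sub_distrib]
      refine Finset.sum_congr rfl fun k _ => ?_
      rw [zpow_add₀ hg0, zpow_natCast]
      ring
    rw [e1]
    ring
  rw [e0]
  have h1 := H_le_sum (unif_law (Fin N → Fin n)) univ (fun k => qf ε j k)
    (fun w => b * ∑ k, wt g ε N j k * qf ε j k w) (fun x y h => by
      congr 1
      refine Finset.sum_congr rfl fun k _ => ?_
      rw [h k (mem_univ k)])
  refine h1.trans ?_
  have h2 : ∀ k : Fin N, H (unif (Fin N → Fin n)) (qf ε j k) ≤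
      (if k < pt N j k then 2 * Real.log n - gam n else 0) +
        (if pt N j k = k then Real.log n else 0) := by
    intro k
    rcases lt_trichotomy k (pt N j k) with h | h | h
    · rw [if_pos h, if_neg (fun h' => by rw [h'] at h; exact lt_irrefl _ h), add_zero]
      have e2 : (qf ε j k : (Fin N → Fin n) → ℚ) =
          fun w => ((w k : ℕ) : ℚ) - ε * ((w (pt N j k) : ℕ) : ℚ) := by
        funext w; unfold qf; rw [if_pos h]
      rw [e2]
      exact le_of_eq (H_two hn0 h.ne hε)
    · rw [if_neg (by rw [← h]; exact lt_irrefl _), if_pos h.symm, zero_add]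
      have h3 := H_le_log_card (unif_law (Fin N → Fin n)) (qf ε j k)
        ((univ : Finset (Fin n)).image fun x : Fin n => ((x : ℕ) : ℚ)) (fun w _ => by
          unfold qf
          rw [← h, if_neg (lt_irrefl _), if_neg (lt_irrefl _)]
          exact mem_image_of_mem _ (mem_univ _))
      refine h3.trans (Real.log_le_log ?_ ?_)
      · exact_mod_cast card_pos.2 (univ_nonempty.image _)
      · have := card_image_le (s := (univ : Finset (Fin n))) (f := fun x : Fin n => ((x : ℕ) : ℚ))
        rw [card_univ, Fintype.card_fin] at this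
        exact_mod_cast this
    · rw [if_neg (not_lt.2 h.le), if_neg h.ne, add_zero]
      have e2 : (qf ε j k : (Fin N → Fin n) → ℚ) = fun _ => 0 := by
        funext w; unfold qf; rw [if_neg (not_lt.2 h.le), if_pos h]
      rw [e2, H_const (unif_law _)]
  refine (Finset.sum_le_sum fun k _ => h2 k).trans ?_
  rw [Finset.sum_add_distrib, ← Finset.sum_filter, ← Finset.sum_filter, Finset.sum_const,
    Finset.sum_const, nsmul_eq_mul, nsmul_eq_mul]
  have h3 := card_lower N j
  have h4 := card_fixed N j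
  set l := (univ.filter fun k : Fin N => k < pt N j k).card with hl
  set f := (univ.filter fun k : Fin N => pt N j k = k).card with hf
  have h5 : (N : ℝ) = 2 * l + f := by exact_mod_cast h3
  have h6 : (f : ℝ) ≤ 2 * j.natAbs + 1 := by exact_mod_cast h4
  have h7 := gam_pos hn
  have h8 : ((N : ℝ) - 2 * j.natAbs - 1) / 2 ≤ l := by linarith
  have h9 := mul_le_mul_of_nonneg_right h8 h7.le
  rw [h5] at h9 ⊢
  nlinarith

/-- A geometric progression, of any length and with both signs, costs `2 log n / gam n`. -/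
theorem good_gp (a b g : ℚ) {n : ℕ} (hn : 2 ≤ n) (hg : n ≤ max g.num.natAbs g.den) :
    Good {t : ℚ | ∃ j : ℤ, t = a + b * g ^ j ∨ t = a - b * g ^ j}
      (2 * Real.log n / gam n) := by
  have hlog : 0 < Real.log n := Real.log_pos (by exact_mod_cast hn)
  have hgam := gam_pos hn
  refine ⟨by positivity, fun T hT c' hc' => ?_⟩
  have h1 : ∀ t ∈ T, ∃ j : ℤ, t = a + b * g ^ j ∨ t = a - b * g ^ j := fun t ht => hT ht
  choose! j hj using h1
  set J : ℕ := T.sup fun t => (j t).natAbs with hJ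
  set η : ℝ := c' * gam n / 2 - Real.log n with hη
  have hη0 : 0 < η := by
    rw [div_lt_iff₀ hgam] at hc'
    rw [hη]
    linarith
  obtain ⟨N, hN⟩ := exists_nat_gt (max 0 ((2 * J + 1) * (Real.log n + η) / η))
  have hN0 : (0 : ℝ) < N := (le_max_left _ _).trans_lt hN
  have hN1 : (2 * J + 1) * (Real.log n + η) < N * η := by
    rw [← div_lt_iff₀ hη0]
    exact (le_max_right _ _).trans_lt hN
  refine ⟨gpG a b g hn hg N, ?_, fun t ht => ?_⟩
  · rw [gpG_L]
    positivity
  · have h2 : (gpG a b g hn hg N).h t ≤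
        N * Real.log n - ((N : ℝ) - 2 * (j t).natAbs - 1) / 2 * gam n := by
      rcases hj t ht with h | h
      · have h3 := gpG_h a b g hn hg N (ε := 1) (Or.inl rfl) (j t)
        have h4 : a + 1 * (b * g ^ j t) = t := by rw [one_mul, ← h]
        rwa [h4] at h3
      · have h3 := gpG_h a b g hn hg N (ε := -1) (Or.inr rfl) (j t)
        have h4 : a + -1 * (b * g ^ j t) = t := by linarith [h]
        rwa [h4] at h3
    have h5 : ((j t).natAbs : ℝ) ≤ J := by
      have : (j t).natAbs ≤ J := Finset.le_sup (f := fun t => (j t).natAbs) ht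
      exact_mod_cast this
    have h6 : 0 < c' := lt_trans (by positivity) hc'
    have h7 : ((N : ℝ) - 2 * J - 1) / 2 * gam n ≤
        (gpG a b g hn hg N).L - (gpG a b g hn hg N).h t := by
      rw [gpG_L]
      have h8 : ((N : ℝ) - 2 * J - 1) / 2 ≤ ((N : ℝ) - 2 * (j t).natAbs - 1) / 2 := by linarith
      have := mul_le_mul_of_nonneg_right h8 hgam.le
      linarith
    have h9 := mul_le_mul_of_nonneg_left h7 h6.le
    refine le_trans ?_ h9
    rw [gpG_L]
    have e1 : c' * (((N : ℝ) - 2 * J - 1) / 2 * gam n) =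
        ((N : ℝ) - 2 * J - 1) * (Real.log n + η) := by
      rw [hη]; ring
    rw [e1]
    nlinarith

end Pool.Agent.Helper20.GS
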