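import Pool.Agent.Helper20.GS.Comb

/-!
# Points, arithmetic progressions, geometric progressions
-/

set_option autoImplicit false
set_option linter.unusedSectionVars false

open Finset
open scoped Classical

namespace Pool.Agent.Helper20.GS
open Pool.Agent.W904.AK

/-- A single height costs `1`. -/
theorem good_point (a : ℚ) : Good {a} 1 := by
  refine ⟨one_pos, fun T hT c' hc' => ?_⟩
  refine ⟨{ Ω := Bool
            X := fun x => -(a * (if x then 1 else 0))
            D := fun x => if x then 1 else 0
            inj := ?_ }, ?_, fun t ht => ?_⟩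
  · intro x y h
    cases x <;> cases y <;> simp_all
  · unfold Gad.L
    simp only [Fintype.card_bool]
    exact Real.log_pos (by norm_num)
  · have h1 : t = a := hT ht
    subst h1
    set G : Gad := { Ω := Bool
                     X := fun x => -(t * (if x then 1 else 0))
                     D := fun x => if x then 1 else 0
                     inj := by intro x y h; cases x <;> cases y <;> simp_all }
    have h0 : G.h t = 0 := by
      unfold Gad.h
      have : (fun x => G.X x + t * G.D x) = fun _ => (0 : ℚ) := by
        funext x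
        show -(t * (if x = true then 1 else 0)) + t * (if x = true then 1 else 0) = (0 : ℚ)
        ring
      rw [this]
      exact H_const (unif_law _) _
    rw [h0, sub_zero]
    have := G.L_nonneg
    nlinarith

lemma two_le_mm {Ω : Type} [Fintype Ω] {α : Type} (f : Ω → α) {x y : Ω} (hxy : x ≠ y)
    (h : f y = f x) : 2 ≤ mm f x := by
  unfold mm
  rw [Nat.succ_le_iff, Finset.one_lt_card]
  exact ⟨x, by simp, y, by simp [h], hxy⟩

/-- The entropy is small if many fibres have at least two elements. -/
lemma H_le_of_mm {Ω : Type} [Fintype Ω] [Nonempty Ω] {α : Type} (f : Ω → α) (W : Finset Ω)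
    (hW : ∀ x ∈ W, 2 ≤ mm f x) (hc : Fintype.card Ω ≤ 2 * W.card) :
    H (unif Ω) f ≤ Real.log (Fintype.card Ω) - Real.log 2 / 2 := by
  rw [H_eq_mn]
  have hpos := cardΩ (Ω := Ω)
  have h2 : (0 : ℝ) < Real.log 2 := Real.log_pos (by norm_num)
  have h1 : Real.log 2 / 2 ≤ mn f := by
    unfold mn
    rw [div_le_div_iff₀ (by norm_num) hpos]
    have h3 : (W.card : ℝ) * Real.log 2 ≤ ∑ x, Real.log (mm f x) := by
      rw [← nsmul_eq_mul, ← Finset.sum_const]
      refine (Finset.sum_le_sum fun x hx => ?_).trans
        (Finset.sum_le_sum_of_subset_of_nonneg (Finset.subset_univ W) fun x _ _ => ?_)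
      · exact Real.log_le_log (by norm_num) (by exact_mod_cast hW x hx)
      · exact Real.log_nonneg (by exact_mod_cast mm_pos f x)
    have h4 : (Fintype.card Ω : ℝ) ≤ 2 * W.card := by exact_mod_cast hc
    nlinarith
  linarith

/-- An arithmetic progression of length `2 k + 1` costs `4 + 2 log₂ (k + 1)`. -/
theorem good_ap (a b : ℚ) (k : ℕ) :
    Good {t : ℚ | ∃ n : ℤ, |n| ≤ k ∧ t = a + b * n} (4 + 2 * (Real.log (k + 1) / Real.log 2)) := by
  have hl2 : (0 : ℝ) < Real.log 2 := Real.log_pos (by norm_num)
  have hlk : (0 : ℝ) ≤ Real.log (k + 1) := Real.log_nonneg (by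
    have : (0 : ℝ) ≤ k := by positivity
    linarith)
  refine ⟨by positivity, fun T hT c' hc' => ?_⟩
  set M : ℤ := 2 * k + 1 with hM
  have hne : Nonempty (Finset.Icc (-M) M) := ⟨⟨0, by rw [Finset.mem_Icc]; omega⟩⟩
  have hcard : Fintype.card (Finset.Icc (-M) M) = 4 * k + 3 := by
    rw [Fintype.card_coe, Int.card_Icc]; omega
  have hinj : Function.Injective fun u : Finset.Icc (-M) M => ((u.1 : ℤ) : ℚ) := by
    intro u v h
    dsimp only at h
    exact Subtype.ext (by exact_mod_cast h)
  refine ⟨{ Ω := Finset.Icc (-M) M
            X := fun u => -(a * (u.1 : ℤ)) - b * (u.1 : ℤ) ^ 2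
            D := fun u => ((u.1 : ℤ) : ℚ)
            inj := hinj }, ?_, fun t ht => ?_⟩
  · unfold Gad.L
    dsimp only
    rw [hcard]
    exact Real.log_pos (by push_cast; have : (0 : ℝ) ≤ k := by positivity
                           linarith)
  · obtain ⟨n, hn, rfl⟩ := hT ht
    unfold Gad.L Gad.h
    dsimp only
    set f : Finset.Icc (-M) M → ℚ := fun u => -(a * ((u.1 : ℤ) : ℚ)) - b * ((u.1 : ℤ) : ℚ) ^ 2 +
      (a + b * n) * ((u.1 : ℤ) : ℚ) with hf
    set W : Finset (Finset.Icc (-M) M) :=
      univ.filter fun u => |u.1| ≤ k + 1 ∧ 2 * u.1 ≠ n with hW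
    have hW2 : Fintype.card (Finset.Icc (-M) M) ≤ 2 * W.card := by
      rw [hcard]
      have h1 : (Finset.Icc (-(k + 1 : ℤ)) (k + 1)).card ≤ W.card + 1 := by
        have h2 : Finset.Icc (-(k + 1 : ℤ)) (k + 1) ⊆
            (W.image fun u => u.1) ∪ {n / 2} := by
          intro u hu
          rw [Finset.mem_Icc] at hu
          rw [Finset.mem_union, Finset.mem_image, Finset.mem_singleton]
          by_cases h : 2 * u = n
          · right; omega
          · left
            refine ⟨⟨u, by rw [Finset.mem_Icc]; omega⟩, ?_, rfl⟩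
            rw [hW, mem_filter]
            exact ⟨mem_univ _, abs_le.2 ⟨by linarith [hu.1], hu.2⟩, h⟩
        refine (card_le_card h2).trans ((card_union_le _ _).trans ?_)
        rw [card_singleton]
        exact Nat.add_le_add_right card_image_le 1
      rw [Int.card_Icc] at h1
      omega
    have h3 := H_le_of_mm f W (fun u hu => by
      rw [hW, mem_filter] at hu
      obtain ⟨_, h4, h5⟩ := hu
      have h6 := abs_le.1 h4
      have h7 := abs_le.1 hn
      have h8 : n - u.1 ∈ Finset.Icc (-M) M := by
        rw [Finset.mem_Icc]; omega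
      refine two_le_mm f (y := ⟨n - u.1, h8⟩) (fun h9 => ?_) ?_
      · have := congrArg Subtype.val h9
        dsimp only at this
        omega
      · simp only [hf]
        push_cast
        ring) hW2
    have h10 : Real.log (Fintype.card (Finset.Icc (-M) M)) ≤
        (4 + 2 * (Real.log (k + 1) / Real.log 2)) * (Real.log 2 / 2) := by
      have e : (4 + 2 * (Real.log (k + 1) / Real.log 2)) * (Real.log 2 / 2) =
          Real.log (4 * (k + 1)) := by
        rw [Real.log_mul (by norm_num) (by positivity), show (4 : ℝ) = 2 ^ 2 by norm_num,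
          Real.log_pow]
        field_simp
        ring
      rw [e, hcard]
      refine Real.log_le_log (by positivity) ?_
      push_cast
      linarith
    have hc0 : 0 ≤ 4 + 2 * (Real.log (k + 1) / Real.log 2) := by positivity
    have h11 : Real.log 2 / 2 ≤ Real.log (Fintype.card (Finset.Icc (-M) M)) - H (unif _) f := by
      linarith
    calc Real.log (Fintype.card (Finset.Icc (-M) M))
        ≤ (4 + 2 * (Real.log (k + 1) / Real.log 2)) * (Real.log 2 / 2) := h10
      _ ≤ c' * (Real.log 2 / 2) := by
          refine mul_le_mul_of_nonneg_right hc'.le (by positivity)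
      _ ≤ _ := mul_le_mul_of_nonneg_left h11 (by linarith)

end Pool.Agent.Helper20.GS
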