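import Pool.Agent.Helper20.GS.Tr

/-!
# Arithmetic progressions of slopes
-/

set_option autoImplicit false
set_option linter.unusedSectionVars false

open Finset
open scoped Classical

namespace Pool.Agent.Helper20.GS
open Pool.Agent.W904.AK

lemma log_le_aux {x : ℝ} {k : ℕ} (hx : 0 < x) (h : x ≤ 16 * (k + 1)) :
    4 * (Real.log x / Real.log 2) ≤ 16 + 4 * (Real.log (k + 1) / Real.log 2) := by
  have h2 : 0 < Real.log 2 := Real.log_pos (by norm_num)
  have h1 : Real.log x ≤ 4 * Real.log 2 + Real.log (k + 1) := by
    refine (Real.log_le_log hx h).trans (le_of_eq ?_)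
    rw [Real.log_mul (by norm_num) (by positivity), show (16 : ℝ) = 2 ^ 4 by norm_num,
      Real.log_pow]
    norm_num
  have h3 : Real.log x / Real.log 2 ≤ 4 + Real.log (k + 1) / Real.log 2 := by
    rw [div_le_iff₀ h2, add_mul, div_mul_cancel₀ _ h2.ne']
    exact h1
  linarith

/-- Heights `a + 1 / (v + c n)`: an arithmetic progression of slopes. -/
theorem good_rap (a v c : ℚ) (k : ℕ) :
    Good {t : ℚ | ∃ n : ℤ, |n| ≤ k ∧ v + c * n ≠ 0 ∧ t = a + 1 / (v + c * n)}
      (16 + 4 * (Real.log (k + 1) / Real.log 2)) := by
  have h2 : 0 < Real.log 2 := Real.log_pos (by norm_num)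
  have hk0 : 0 ≤ Real.log ((k : ℝ) + 1) := Real.log_nonneg (by
    have : (0 : ℝ) ≤ k := by positivity
    linarith)
  have hpos : 0 ≤ Real.log ((k : ℝ) + 1) / Real.log 2 := by positivity
  by_cases hc : c = 0
  · refine (good_point (a + 1 / v)).mono ?_ (by linarith)
    rintro t ⟨n, _, _, rfl⟩
    rw [hc]
    simp
  by_cases hk : k = 0
  · refine (good_point (a + 1 / v)).mono ?_ (by linarith)
    rintro t ⟨n, hn, _, rfl⟩
    have hn' : n = 0 := by
      rw [hk] at hn
      have := abs_le.1 hn
      omega
    rw [hn']
    simp
  have hk1 : 1 ≤ k := by omega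
  set β : ℕ × ℕ → ℚ := fun p => p.1 * v + p.2 * c with hβ
  set X : Finset (ℕ × ℕ) := range 4 ×ˢ range (3 * k + 1) with hX
  by_cases hinj : Set.InjOn β X
  · set B : Finset ℚ := X.image β with hB
    have hBc : B.card = 4 * (3 * k + 1) := by
      rw [hB, card_image_of_injOn hinj, hX, card_product, card_range, card_range]
    have h := good_tr a B (by omega) (K := 2) (by norm_num)
    refine h.mono ?_ ?_
    · rintro t ⟨n, hn, hne, rfl⟩
      refine ⟨v + c * n, hne, rfl, ?_⟩
      rw [hBc]
      have hn' := abs_le.1 hn
      set s : ℕ := (-n).toNat with hs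
      set Y : Finset (ℕ × ℕ) := (range 3 ×ˢ range (2 * k + 1)).image
        fun p => (p.1, p.2 + s) with hY
      have hYX : Y ⊆ X := by
        intro p hp
        rw [hY, mem_image] at hp
        obtain ⟨q, hq, rfl⟩ := hp
        rw [mem_product, mem_range, mem_range] at hq
        rw [hX, mem_product, mem_range, mem_range]
        dsimp only
        omega
      have hYc : Y.card = 3 * (2 * k + 1) := by
        rw [hY, card_image_of_injective, card_product, card_range, card_range]
        intro p q hpq
        have h3 := congrArg Prod.fst hpq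
        have h4 := congrArg Prod.snd hpq
        dsimp only at h3 h4
        exact Prod.ext h3 (by omega)
      have h1 : 3 * (2 * k + 1) ≤ (B.filter fun u => u + (v + c * n) ∈ B).card := by
        rw [← hYc, ← card_image_of_injOn (hinj.mono (coe_subset.2 hYX))]
        refine card_le_card fun x hx => ?_
        rw [mem_image] at hx
        obtain ⟨p, hp, rfl⟩ := hx
        rw [mem_filter]
        refine ⟨mem_image_of_mem _ (hYX hp), ?_⟩
        rw [hY, mem_image] at hp
        obtain ⟨q, hq, rfl⟩ := hp
        rw [mem_product, mem_range, mem_range] at hq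
        rw [hB, mem_image]
        refine ⟨(q.1 + 1, (((q.2 + s : ℕ) : ℤ) + n).toNat), ?_, ?_⟩
        · rw [hX, mem_product, mem_range, mem_range]
          dsimp only
          omega
        · have e : (((((q.2 + s : ℕ) : ℤ) + n).toNat : ℕ) : ℚ) = ((q.2 + s : ℕ) : ℚ) + n := by
            have : (((((q.2 + s : ℕ) : ℤ) + n).toNat : ℕ) : ℤ) = ((q.2 + s : ℕ) : ℤ) + n := by
              omega
            exact_mod_cast this
          simp only [hβ]
          rw [e]
          push_cast
          ring
      have h5 : ((3 * (2 * k + 1) : ℕ) : ℝ) ≤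
          ((B.filter fun u => u + (v + c * n) ∈ B).card : ℝ) := by exact_mod_cast h1
      push_cast at h5 ⊢
      linarith
    · rw [hBc]
      have h3 := log_le_aux (x := ((4 * (3 * k + 1) : ℕ) : ℝ)) (k := k) (by positivity) (by
        push_cast
        have : (0 : ℝ) ≤ k := by positivity
        linarith)
      refine le_trans (le_of_eq ?_) h3
      ring
  · -- two representations: `v` is a rational multiple of `c`
    obtain ⟨p, hp, q, hq, hpq, hne⟩ : ∃ p ∈ (X : Set (ℕ × ℕ)), ∃ q ∈ (X : Set (ℕ × ℕ)),
        β p = β q ∧ p ≠ q := by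
      by_contra hcon
      push Not at hcon
      exact hinj fun p hp q hq h => hcon p hp q hq h
    rw [mem_coe, hX, mem_product, mem_range, mem_range] at hp hq
    simp only [hβ] at hpq
    have h1 : ((p.1 : ℤ) - q.1 : ℤ) ≠ 0 := by
      intro h3
      apply hne
      have h4 : p.1 = q.1 := by omega
      rw [h4] at hpq
      have h5 := mul_right_cancel₀ hc (add_left_cancel hpq)
      exact Prod.ext h4 (by exact_mod_cast h5)
    set P : ℤ := (p.1 : ℤ) - q.1 with hP
    set Q : ℤ := (q.2 : ℤ) - p.2 with hQ
    have hPq : (P : ℚ) ≠ 0 := by exact_mod_cast h1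
    have hv : v = Q / P * c := by
      have : (P : ℚ) * v = Q * c := by
        rw [hP, hQ]
        push_cast
        linarith
      field_simp
      linarith
    have h := good_rap0 a (c / P) (div_ne_zero hc hPq) (k := 6 * k) (by omega)
    refine h.mono ?_ ?_
    · rintro t ⟨n, hn, hne', rfl⟩
      have e : v + c * n = c / P * ((Q + P * n : ℤ) : ℚ) := by
        rw [hv]
        push_cast
        field_simp
      refine ⟨Q + P * n, ?_, ?_, ?_⟩
      · intro h0
        apply hne'
        rw [e, h0]
        simp
      · have hn' := abs_le.1 hn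
        have hPa : |P| ≤ 3 := by rw [abs_le]; omega
        have hQa : |Q| ≤ 3 * k := by rw [abs_le]; omega
        have h3 : |P * n| ≤ 3 * k := by
          rw [abs_mul]
          exact mul_le_mul hPa hn (abs_nonneg _) (by norm_num)
        have h4 := abs_add_le Q (P * n)
        push_cast
        linarith
      · rw [e]
    · have h3 := log_le_aux (x := 2 * ((6 * k : ℕ) : ℝ)) (k := k) (by
        have : (1 : ℝ) ≤ k := by exact_mod_cast hk1
        push_cast
        linarith) (by
        push_cast
        have : (0 : ℝ) ≤ k := by positivity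
        linarith)
      exact h3

end Pool.Agent.Helper20.GS
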