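import Pool.Agent.Helper20.GS.Gp

/-!
# Additively and multiplicatively structured sets of heights
-/

set_option autoImplicit false
set_option linter.unusedSectionVars false

open Finset
open scoped Classical

namespace Pool.Agent.Helper20.GS
open Pool.Agent.W904.AK

lemma Good.mono {U U' : Set ℚ} {c c' : ℝ} (h : Good U c) (hU : U' ⊆ U) (hc : c ≤ c') :
    Good U' c' :=
  ⟨h.1.trans_le hc, fun T hT d hd => h.2 T (hT.trans hU) d (hc.trans_lt hd)⟩

lemma good_of_gad (G : Gad) (U : Set ℚ) {c : ℝ} (hc : 0 < c) (hL : 0 < G.L)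
    (h : ∀ t ∈ U, G.L ≤ c * (G.L - G.h t)) : Good U c := by
  refine ⟨hc, fun T hT c' hc' => ⟨G, hL, fun t ht => (h t (hT ht)).trans ?_⟩⟩
  refine mul_le_mul_of_nonneg_right hc'.le ?_
  have := G.h_le t
  linarith

/-- Many fibres with at least two elements. -/
lemma mn_ge {Ω : Type} [Fintype Ω] [Nonempty Ω] {α : Type} (f : Ω → α) (W : Finset Ω)
    (hW : ∀ x ∈ W, 2 ≤ mm f x) : Real.log 2 * W.card / Fintype.card Ω ≤ mn f := by
  have hpos := cardΩ (Ω := Ω)
  unfold mn
  refine div_le_div_of_nonneg_right ?_ hpos.le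
  have h3 : (W.card : ℝ) * Real.log 2 ≤ ∑ x, Real.log (mm f x) := by
    rw [← nsmul_eq_mul, ← Finset.sum_const]
    refine (Finset.sum_le_sum fun x hx => ?_).trans
      (Finset.sum_le_sum_of_subset_of_nonneg (Finset.subset_univ W) fun x _ _ => ?_)
    · exact Real.log_le_log (by norm_num) (by exact_mod_cast hW x hx)
    · exact Real.log_nonneg (by exact_mod_cast mm_pos f x)
  linarith

/-- A family with an involution-like structure. -/
lemma good_of_fold (G : Gad) (U : Set ℚ) {K : ℝ} (hK : 0 < K) (hL : 0 < G.L)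
    (h : ∀ t ∈ U, ∃ W : Finset G.Ω, (∀ x ∈ W, 2 ≤ mm (fun x => G.X x + t * G.D x) x) ∧
      (Fintype.card G.Ω : ℝ) ≤ K * W.card) :
    Good U (K * (G.L / Real.log 2)) := by
  have h2 : 0 < Real.log 2 := Real.log_pos (by norm_num)
  refine good_of_gad G U (by positivity) hL fun t ht => ?_
  obtain ⟨W, h3, h4⟩ := h t ht
  have h5 := mn_ge _ W h3
  have hpos := cardΩ (Ω := G.Ω)
  have h6 : Real.log 2 / K ≤ G.L - G.h t := by
    have e : G.L - G.h t = mn (fun x => G.X x + t * G.D x) := by
      unfold Gad.h Gad.L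
      rw [H_eq_mn]
      ring
    rw [e]
    refine le_trans ?_ h5
    rw [div_le_div_iff₀ hK hpos]
    nlinarith
  have h7 := mul_le_mul_of_nonneg_left h6 (by positivity : 0 ≤ K * (G.L / Real.log 2))
  refine le_trans (le_of_eq ?_) h7
  field_simp

/-- Additive reflections. -/
theorem good_add (a b : ℚ) (B : Finset ℚ) (hB : 2 ≤ B.card) {K : ℝ} (hK : 0 < K) :
    Good {t : ℚ | ∃ τ : ℚ, t = a + b * τ ∧
      (B.card : ℝ) ≤ K * (B.filter fun u => τ - u ∈ B ∧ τ - u ≠ u).card}
      (K * (Real.log B.card / Real.log 2)) := by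
  have hne : Nonempty B := by
    obtain ⟨x, hx⟩ := card_pos.1 (by omega : 0 < B.card)
    exact ⟨⟨x, hx⟩⟩
  set G : Gad := { Ω := B
                   X := fun u => -(a * u.1) - b * u.1 ^ 2
                   D := fun u => u.1
                   inj := Subtype.val_injective } with hG
  have hL : G.L = Real.log B.card := by
    unfold Gad.L
    simp only [hG, Fintype.card_coe]
  rw [← hL]
  refine good_of_fold G _ hK (by rw [hL]; exact Real.log_pos (by exact_mod_cast hB)) ?_
  rintro t ⟨τ, rfl, h⟩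
  refine ⟨univ.filter fun u : B => τ - u.1 ∈ B ∧ τ - u.1 ≠ u.1, fun u hu => ?_, ?_⟩
  · have h1 : τ - u.1 ∈ B ∧ τ - u.1 ≠ u.1 := (mem_filter.1 hu).2
    refine two_le_mm _ (y := ⟨τ - u.1, h1.1⟩) (fun h2 => h1.2 ?_) ?_
    · exact (congrArg Subtype.val h2).symm
    · show -(a * (τ - u.1)) - b * (τ - u.1) ^ 2 + (a + b * τ) * (τ - u.1) =
        -(a * u.1) - b * u.1 ^ 2 + (a + b * τ) * u.1
      ring
  · have e : (univ.filter fun u : B => τ - u.1 ∈ B ∧ τ - u.1 ≠ u.1).card =
        (B.filter fun u => τ - u ∈ B ∧ τ - u ≠ u).card := by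
      rw [← card_image_of_injective _ (Subtype.val_injective : Function.Injective
        (fun u : B => u.1))]
      congr 1
      ext x
      simp only [mem_image, mem_filter, mem_univ, true_and]
      constructor
      · rintro ⟨u, hu, rfl⟩
        exact ⟨u.2, hu⟩
      · rintro ⟨hx, hx2⟩
        exact ⟨⟨x, hx⟩, hx2, rfl⟩
    have e2 : Fintype.card G.Ω = B.card := Fintype.card_coe B
    rw [e2]
    refine h.trans (le_of_eq ?_)
    congr 2
    exact e.symm

/-- Multiplicative reflections. -/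
theorem good_mul (a b : ℚ) (B : Finset ℚ) (hB : 2 ≤ B.card) {K : ℝ} (hK : 0 < K) :
    Good {t : ℚ | ∃ τ : ℚ, τ ≠ 0 ∧ t = a + b * τ ∧
      (B.card : ℝ) ≤ K * (B.filter fun u => u ≠ 0 ∧ (τ * u)⁻¹ ∈ B ∧ (τ * u)⁻¹ ≠ u).card}
      (K * (Real.log B.card / Real.log 2)) := by
  have hne : Nonempty B := by
    obtain ⟨x, hx⟩ := card_pos.1 (by omega : 0 < B.card)
    exact ⟨⟨x, hx⟩⟩
  set G : Gad := { Ω := B
                   X := fun u => -(a * u.1) + b * (u.1)⁻¹
                   D := fun u => u.1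
                   inj := Subtype.val_injective } with hG
  have hL : G.L = Real.log B.card := by
    unfold Gad.L
    simp only [hG, Fintype.card_coe]
  rw [← hL]
  refine good_of_fold G _ hK (by rw [hL]; exact Real.log_pos (by exact_mod_cast hB)) ?_
  rintro t ⟨τ, hτ, rfl, h⟩
  refine ⟨univ.filter fun u : B => u.1 ≠ 0 ∧ (τ * u.1)⁻¹ ∈ B ∧ (τ * u.1)⁻¹ ≠ u.1,
    fun u hu => ?_, ?_⟩
  · have h1 : u.1 ≠ 0 ∧ (τ * u.1)⁻¹ ∈ B ∧ (τ * u.1)⁻¹ ≠ u.1 := (mem_filter.1 hu).2
    refine two_le_mm _ (y := ⟨(τ * u.1)⁻¹, h1.2.1⟩) (fun h2 => h1.2.2 ?_) ?_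
    · exact (congrArg Subtype.val h2).symm
    · show -(a * (τ * u.1)⁻¹) + b * ((τ * u.1)⁻¹)⁻¹ + (a + b * τ) * (τ * u.1)⁻¹ =
        -(a * u.1) + b * (u.1)⁻¹ + (a + b * τ) * u.1
      have := h1.1
      field_simp
      ring
  · have e : (univ.filter fun u : B => u.1 ≠ 0 ∧ (τ * u.1)⁻¹ ∈ B ∧ (τ * u.1)⁻¹ ≠ u.1).card =
        (B.filter fun u => u ≠ 0 ∧ (τ * u)⁻¹ ∈ B ∧ (τ * u)⁻¹ ≠ u).card := by
      rw [← card_image_of_injective _ (Subtype.val_injective : Function.Injective
        (fun u : B => u.1))]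
      congr 1
      ext x
      simp only [mem_image, mem_filter, mem_univ, true_and]
      constructor
      · rintro ⟨u, hu, rfl⟩
        exact ⟨u.2, hu⟩
      · rintro ⟨hx, hx2⟩
        exact ⟨⟨x, hx⟩, hx2, rfl⟩
    have e2 : Fintype.card G.Ω = B.card := Fintype.card_coe B
    rw [e2]
    refine h.trans (le_of_eq ?_)
    congr 2
    exact e.symm

/-- Functions with two prescribed values. -/
lemma card_two_values {B : Type} [Fintype B] [DecidableEq B] {u v : B} (huv : u ≠ v) (x y : Bool) :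
    (univ.filter fun f : B → Bool => f u = x ∧ f v = y).card * 4 = 2 ^ Fintype.card B := by
  have e1 : (univ.filter fun f : B → Bool => f u = x ∧ f v = y) =
      Fintype.piFinset fun i => if i = u then {x} else if i = v then {y} else univ := by
    ext w
    simp only [mem_filter, mem_univ, true_and, Fintype.mem_piFinset]
    constructor
    · rintro ⟨h1, h2⟩ i
      by_cases hi : i = u
      · rw [if_pos hi, hi, h1]; exact mem_singleton_self _
      · rw [if_neg hi]
        by_cases hj : i = v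
        · rw [if_pos hj, hj, h2]; exact mem_singleton_self _
        · rw [if_neg hj]; exact mem_univ _
    · intro h
      have h1 := h u
      have h2 := h v
      rw [if_pos rfl, mem_singleton] at h1
      rw [if_neg (Ne.symm huv), if_pos rfl, mem_singleton] at h2
      exact ⟨h1, h2⟩
  rw [e1, Fintype.card_piFinset]
  have e3 : (∏ i : B, ((if i = u then {x} else if i = v then {y} else univ :
      Finset Bool)).card) = ∏ i ∈ (univ.erase u).erase v, 2 := by
    rw [← Finset.mul_prod_erase _ _ (mem_univ u), ← Finset.mul_prod_erase _ _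
      (mem_erase.2 ⟨Ne.symm huv, mem_univ v⟩)]
    rw [if_pos rfl, if_neg (Ne.symm huv), if_pos rfl, card_singleton, card_singleton, one_mul,
      one_mul]
    refine Finset.prod_congr rfl fun i hi => ?_
    rw [mem_erase, mem_erase] at hi
    rw [if_neg hi.2.1, if_neg hi.1, card_univ, Fintype.card_bool]
  have hc : 2 ≤ Fintype.card B := by
    have : ({u, v} : Finset B).card ≤ Fintype.card B := card_le_univ _
    rwa [card_pair huv] at this
  rw [e3, Finset.prod_const, card_erase_of_mem (mem_erase.2 ⟨Ne.symm huv, mem_univ v⟩),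
    card_erase_of_mem (mem_univ u), card_univ, show (4 : ℕ) = 2 ^ 2 by norm_num, ← pow_add]
  congr 1
  omega

end Pool.Agent.Helper20.GS
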