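import Pool.Agent.Helper20.GS.Str

/-!
# Heights `a + 1 / τ` with a set which is almost invariant under the translations `τ`
-/

set_option autoImplicit false
set_option linter.unusedSectionVars false

open Finset
open scoped Classical

namespace Pool.Agent.Helper20.GS
open Pool.Agent.W904.AK

/-- The family attached to a function with values `0` and `1`. -/
def trG (a : ℚ) (B : Finset ℚ) (hne : Nonempty B) (f : B → Bool) : Gad where
  Ω := B
  X := fun u => -(a * u.1) + (if f u = true then 1 else 0)
  D := fun u => u.1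
  inj := Subtype.val_injective

theorem good_tr (a : ℚ) (B : Finset ℚ) (hB : 2 ≤ B.card) {K : ℝ} (hK : 0 < K) :
    Good {t : ℚ | ∃ τ : ℚ, τ ≠ 0 ∧ t = a + 1 / τ ∧
      (B.card : ℝ) ≤ K * (B.filter fun u => u + τ ∈ B).card}
      (2 * K * (Real.log B.card / Real.log 2)) := by
  have hne : Nonempty B := by
    obtain ⟨x, hx⟩ := card_pos.1 (by omega : 0 < B.card)
    exact ⟨⟨x, hx⟩⟩
  have h2 : 0 < Real.log 2 := Real.log_pos (by norm_num)
  have hlB : 0 < Real.log B.card := Real.log_pos (by exact_mod_cast hB)
  obtain ⟨G, hGL, hGh⟩ := Gad.sum (univ : Finset (B → Bool)) (trG a B hne) (fun _ => 1)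
  have hcardB : Fintype.card B = B.card := Fintype.card_coe B
  have hL1 : ∀ f, (trG a B hne f).L = Real.log B.card := by
    intro f
    unfold Gad.L
    show Real.log (Fintype.card B : ℕ) = _
    rw [hcardB]
  have hF : ((Fintype.card (B → Bool) : ℕ) : ℝ) = 2 ^ B.card := by
    rw [Fintype.card_pi, Finset.prod_const, card_univ, hcardB, Fintype.card_bool]
    push_cast
    rfl
  have hL : G.L = 2 ^ B.card * Real.log B.card := by
    rw [hGL]
    simp only [hL1, Nat.cast_one, one_mul, Finset.sum_const, card_univ, nsmul_eq_mul]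
    rw [hF]
  refine good_of_gad G _ (by positivity) (by rw [hL]; positivity) ?_
  rintro t ⟨τ, hτ, rfl, h⟩
  set E : Finset (B × B) := univ.filter fun p => p.2.1 = p.1.1 + τ with hE
  have hEc : E.card = (B.filter fun u => u + τ ∈ B).card := by
    refine Finset.card_bij (fun p _ => p.1.1) ?_ ?_ ?_
    · intro p hp
      rw [hE, mem_filter] at hp
      rw [mem_filter]
      exact ⟨p.1.2, by rw [← hp.2]; exact p.2.2⟩
    · intro p hp q hq hpq
      rw [hE, mem_filter] at hp hq
      refine Prod.ext (Subtype.ext hpq) (Subtype.ext ?_)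
      rw [hp.2, hq.2, hpq]
    · intro u hu
      rw [mem_filter] at hu
      exact ⟨(⟨u, hu.1⟩, ⟨u + τ, hu.2⟩), by rw [hE, mem_filter]; exact ⟨mem_univ _, rfl⟩, rfl⟩
  have hEne : ∀ p ∈ E, p.1 ≠ p.2 := by
    intro p hp h3
    rw [hE, mem_filter] at hp
    apply hτ
    have := hp.2
    rw [← h3] at this
    linarith
  -- the number of pairs with the values `1`, `0`
  set nf : (B → Bool) → ℕ := fun f => (E.filter fun p => f p.1 = true ∧ f p.2 = false).card
    with hnf
  have hsum : (∑ f, (nf f : ℝ)) * 4 = E.card * 2 ^ B.card := by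
    have e1 : ∑ f, nf f = ∑ p ∈ E, (univ.filter fun f : B → Bool =>
        f p.1 = true ∧ f p.2 = false).card := by
      simp only [hnf, Finset.card_filter]
      rw [Finset.sum_comm]
    have e2 : (∑ f, nf f) * 4 = E.card * 2 ^ B.card := by
      rw [e1, Finset.sum_mul, Finset.sum_congr rfl fun p hp =>
        card_two_values (hEne p hp) true false, Finset.sum_const, smul_eq_mul, hcardB]
    exact_mod_cast e2
  have hgain : ∀ f, Real.log 2 * (2 * nf f) / B.card ≤
      Real.log B.card - (trG a B hne f).h (a + 1 / τ) := by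
    intro f
    set Q := E.filter fun p => f p.1 = true ∧ f p.2 = false with hQ
    have hW1 : (Q.image Prod.fst).card = nf f := by
      refine card_image_of_injOn ?_
      intro p hp q hq hpq
      rw [hQ, coe_filter] at hp hq
      have hp1 := (mem_filter.1 hp.1).2
      have hq1 := (mem_filter.1 hq.1).2
      refine Prod.ext hpq (Subtype.ext ?_)
      rw [hp1, hq1, hpq]
    have hW2 : (Q.image Prod.snd).card = nf f := by
      refine card_image_of_injOn ?_
      intro p hp q hq hpq
      rw [hQ, coe_filter] at hp hq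
      have hp1 := (mem_filter.1 hp.1).2
      have hq1 := (mem_filter.1 hq.1).2
      refine Prod.ext (Subtype.ext ?_) hpq
      have : p.2.1 = q.2.1 := congrArg Subtype.val hpq
      rw [hp1, hq1] at this
      linarith
    have hdis : Disjoint (Q.image Prod.fst) (Q.image Prod.snd) := by
      rw [Finset.disjoint_left]
      intro x hx hx'
      rw [mem_image] at hx hx'
      obtain ⟨p, hp, rfl⟩ := hx
      obtain ⟨q, hq, hqp⟩ := hx'
      rw [hQ, mem_filter] at hp hq
      have h3 := hp.2.1
      have h4 := hq.2.2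
      rw [hqp, h3] at h4
      exact absurd h4 (by decide)
    have hWc : ((Q.image Prod.fst ∪ Q.image Prod.snd).card : ℝ) = 2 * nf f := by
      rw [card_union_of_disjoint hdis, hW1, hW2]
      push_cast
      ring
    have hval : ∀ p ∈ Q, (fun x => (trG a B hne f).X x + (a + 1 / τ) * (trG a B hne f).D x) p.1 =
        (fun x => (trG a B hne f).X x + (a + 1 / τ) * (trG a B hne f).D x) p.2 := by
      intro p hp
      rw [hQ, mem_filter] at hp
      have h3 := (mem_filter.1 hp.1).2
      show -(a * p.1.1) + (if f p.1 = true then 1 else 0) + (a + 1 / τ) * p.1.1 =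
        -(a * p.2.1) + (if f p.2 = true then 1 else 0) + (a + 1 / τ) * p.2.1
      rw [hp.2.1, hp.2.2, h3, if_pos rfl, if_neg (by decide)]
      field_simp
      ring
    have h5 := mn_ge (Ω := B)
      (fun x => (trG a B hne f).X x + (a + 1 / τ) * (trG a B hne f).D x)
      (Q.image Prod.fst ∪ Q.image Prod.snd) (fun x hx => by
        rcases mem_union.1 hx with hx | hx
        · obtain ⟨p, hp, rfl⟩ := mem_image.1 hx
          have hp' := hEne p (mem_filter.1 hp).1
          exact two_le_mm _ hp' (hval p hp).symm
        · obtain ⟨p, hp, rfl⟩ := mem_image.1 hx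
          have hp' := hEne p (mem_filter.1 hp).1
          exact two_le_mm _ hp'.symm (hval p hp))
    rw [hWc, hcardB] at h5
    refine h5.trans (le_of_eq ?_)
    have h6 := H_eq_mn (Ω := B)
      (fun x => (trG a B hne f).X x + (a + 1 / τ) * (trG a B hne f).D x)
    rw [hcardB] at h6
    have h7 : (trG a B hne f).h (a + 1 / τ) = H (unif B)
      (fun x => (trG a B hne f).X x + (a + 1 / τ) * (trG a B hne f).D x) := rfl
    rw [h7, h6]
    ring
  have hG1 := hGh (a + 1 / τ)
  simp only [Nat.cast_one, one_mul] at hG1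
  have htot : Real.log 2 * (2 * ∑ f, (nf f : ℝ)) / B.card ≤ G.L - G.h (a + 1 / τ) := by
    have h3 := Finset.sum_le_sum fun f (_ : f ∈ (univ : Finset (B → Bool))) => hgain f
    rw [Finset.sum_sub_distrib, Finset.sum_const, card_univ, nsmul_eq_mul, hF, ← hL,
      ← Finset.sum_div, ← Finset.mul_sum, ← Finset.mul_sum] at h3
    linarith
  have hBpos : (0 : ℝ) < B.card := by exact_mod_cast (by omega : 0 < B.card)
  have h8 : Real.log 2 * 2 ^ B.card / (2 * K) ≤ G.L - G.h (a + 1 / τ) := by
    refine le_trans ?_ htot
    have h9 : 2 * ∑ f, (nf f : ℝ) = E.card * 2 ^ B.card / 2 := by linarith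
    rw [h9, hEc, div_le_div_iff₀ (by positivity) hBpos]
    have h10 : (0 : ℝ) < 2 ^ B.card := by positivity
    have h11 := mul_le_mul_of_nonneg_left h (mul_pos h2 h10).le
    linarith
  have h12 := mul_le_mul_of_nonneg_left h8
    (by positivity : 0 ≤ 2 * K * (Real.log B.card / Real.log 2))
  refine le_trans (le_of_eq ?_) h12
  rw [hL]
  field_simp

/-- Heights `a + 1 / (c n)`: an arithmetic progression of slopes through `-1`. -/
theorem good_rap0 (a c : ℚ) (hc : c ≠ 0) {k : ℕ} (hk : 1 ≤ k) :
    Good {t : ℚ | ∃ n : ℤ, n ≠ 0 ∧ |n| ≤ k ∧ t = a + 1 / (c * n)}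
      (4 * (Real.log (2 * k) / Real.log 2)) := by
  set B : Finset ℚ := (range (2 * k)).image fun i : ℕ => c * (i : ℚ) with hB
  have hinj : Function.Injective fun i : ℕ => c * (i : ℚ) := by
    intro i j h
    have := mul_left_cancel₀ hc h
    exact_mod_cast this
  have hBc : B.card = 2 * k := by rw [hB, card_image_of_injective _ hinj, card_range]
  have h := good_tr a B (by omega) (K := 2) (by norm_num)
  refine h.mono ?_ (le_of_eq ?_)
  · rintro t ⟨n, hn0, hn, rfl⟩
    refine ⟨c * n, mul_ne_zero hc (by exact_mod_cast hn0), rfl, ?_⟩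
    rw [hBc]
    have h1 : k ≤ (B.filter fun u => u + c * n ∈ B).card := by
      have hn' := abs_le.1 hn
      set s : ℕ := (-n).toNat with hs
      have h2 : ((range k).image fun i : ℕ => c * ((i + s : ℕ) : ℚ)) ⊆
          B.filter fun u => u + c * n ∈ B := by
        intro x hx
        rw [mem_image] at hx
        obtain ⟨i, hi, rfl⟩ := hx
        rw [mem_range] at hi
        rw [mem_filter]
        refine ⟨?_, ?_⟩
        · rw [hB, mem_image]
          exact ⟨i + s, by rw [mem_range]; omega, rfl⟩
        · rw [hB, mem_image]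
          refine ⟨(((i + s : ℕ) : ℤ) + n).toNat, by rw [mem_range]; omega, ?_⟩
          have e : (((((i + s : ℕ) : ℤ) + n).toNat : ℕ) : ℚ) = ((i + s : ℕ) : ℚ) + n := by
            have : (((((i + s : ℕ) : ℤ) + n).toNat : ℕ) : ℤ) = ((i + s : ℕ) : ℤ) + n := by omega
            exact_mod_cast this
          rw [e]
          ring
      have h3 := card_le_card h2
      rwa [card_image_of_injective, card_range] at h3
      intro i j hij
      have := mul_left_cancel₀ hc hij
      have h4 : i + s = j + s := by exact_mod_cast this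
      omega
    have h5 : (k : ℝ) ≤ ((B.filter fun u => u + c * n ∈ B).card : ℝ) := by exact_mod_cast h1
    push_cast
    linarith
  · rw [hBc]
    push_cast
    ring

end Pool.Agent.Helper20.GS
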