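import Pool.Graph.R_seed8.W904.AK.Final

/-!
# Typical sets for the uniform law
-/

set_option autoImplicit false
set_option linter.unusedSectionVars false

open Finset
open scoped Classical

namespace Pool.Agent.Helper20.GS
open Pool.Agent.W904.AK

lemma card_image_inst {ι β : Type} (s : Finset ι) (f : ι → β) (i1 i2 : DecidableEq β) :
    (@Finset.image ι β i1 f s).card = (@Finset.image ι β i2 f s).card := by
  rw [Subsingleton.elim i1 i2]

lemma card_filter_inst {ι : Type} (s : Finset ι) (p : ι → Prop) (i1 i2 : DecidablePred p) :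
    (@Finset.filter ι p i1 s).card = (@Finset.filter ι p i2 s).card := by
  rw [Subsingleton.elim i1 i2]

variable {Ω : Type} [Fintype Ω] [Nonempty Ω]

/-- The size of the fibre. -/
noncomputable def mm {α : Type} (f : Ω → α) (x : Ω) : ℕ := (univ.filter fun y => f y = f x).card

lemma mm_pos {α : Type} (f : Ω → α) (x : Ω) : 0 < mm f x :=
  card_pos.2 ⟨x, by simp⟩

lemma im_unif {α : Type} (f : Ω → α) (x : Ω) :
    im (unif Ω) f (f x) = (mm f x : ℝ) / Fintype.card Ω := by
  rw [im_eq_sum]
  unfold unif mm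
  rw [← Finset.sum_filter, Finset.sum_const, nsmul_eq_mul]
  ring

/-- The mean of the logarithms of the fibre sizes. -/
noncomputable def mn {α : Type} (f : Ω → α) : ℝ :=
  (∑ x, Real.log (mm f x)) / Fintype.card Ω

lemma cardΩ : (0 : ℝ) < Fintype.card Ω := by exact_mod_cast Fintype.card_pos

lemma H_eq_mn {α : Type} (f : Ω → α) :
    H (unif Ω) f = Real.log (Fintype.card Ω) - mn f := by
  have hc := cardΩ (Ω := Ω)
  unfold H mn
  have e : ∀ x, unif Ω x * -Real.log (im (unif Ω) f (f x)) =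
      1 / (Fintype.card Ω : ℝ) * (Real.log (Fintype.card Ω) - Real.log (mm f x)) := by
    intro x
    have := mm_pos f x
    rw [im_unif, Real.log_div (by positivity) hc.ne']
    unfold unif
    ring
  rw [Finset.sum_congr rfl fun x _ => e x, ← Finset.mul_sum, Finset.sum_sub_distrib,
    Finset.sum_const, card_univ, nsmul_eq_mul]
  field_simp

/-- Sums over words. -/
lemma sum_cons {β : Type} [AddCommMonoid β] (N : ℕ) (F : (Fin (N + 1) → Ω) → β) :
    ∑ w, F w = ∑ x : Ω, ∑ w : Fin N → Ω, F (Fin.cons x w) := by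
  rw [← Fintype.sum_prod_type']
  exact (Fintype.sum_equiv (Fin.consEquiv (fun _ : Fin (N + 1) => Ω)) _ _ fun z => rfl).symm

lemma sum_zero {φ : Ω → ℝ} (h0 : ∑ x, φ x = 0) (N : ℕ) :
    ∑ w : Fin N → Ω, ∑ i, φ (w i) = 0 := by
  induction N with
  | zero => simp
  | succ N ih =>
    rw [sum_cons]
    simp only [Fin.sum_univ_succ, Fin.cons_zero, Fin.cons_succ, Finset.sum_add_distrib, ih,
      Finset.sum_const, add_zero]
    rw [← Finset.smul_sum, h0, smul_zero]

lemma second_moment {φ : Ω → ℝ} (h0 : ∑ x, φ x = 0) (N : ℕ) :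
    (∑ w : Fin N → Ω, (∑ i, φ (w i)) ^ 2) * Fintype.card Ω =
      N * (Fintype.card Ω : ℝ) ^ N * ∑ x, φ x ^ 2 := by
  induction N with
  | zero => simp
  | succ N ih =>
    have e : (∑ w : Fin (N + 1) → Ω, (∑ i, φ (w i)) ^ 2) =
        (Fintype.card Ω : ℝ) ^ N * ∑ x, φ x ^ 2 +
          Fintype.card Ω * ∑ w : Fin N → Ω, (∑ i, φ (w i)) ^ 2 := by
      rw [sum_cons]
      simp only [Fin.sum_univ_succ, Fin.cons_zero, Fin.cons_succ]
      have e1 : ∀ x : Ω, ∑ w : Fin N → Ω, (φ x + ∑ i, φ (w i)) ^ 2 =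
          (Fintype.card Ω : ℝ) ^ N * φ x ^ 2 + ∑ w : Fin N → Ω, (∑ i, φ (w i)) ^ 2 := by
        intro x
        have e2 : ∀ w : Fin N → Ω, (φ x + ∑ i, φ (w i)) ^ 2 =
            φ x ^ 2 + 2 * φ x * (∑ i, φ (w i)) + (∑ i, φ (w i)) ^ 2 := fun w => by ring
        simp only [e2, Finset.sum_add_distrib, Finset.sum_const, ← Finset.mul_sum, sum_zero h0,
          mul_zero, add_zero, card_univ, nsmul_eq_mul, Fintype.card_pi, Finset.prod_const,
          Fintype.card_fin]
        push_cast
        ring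
      simp only [e1, Finset.sum_add_distrib, Finset.sum_const, ← Finset.mul_sum, card_univ,
        nsmul_eq_mul]
    rw [e, add_mul, mul_assoc ((Fintype.card Ω : ℝ)) _ _, ih]
    push_cast
    ring

/-- The sum of the logarithms of the fibre sizes. -/
noncomputable def SL {α : Type} (f : Ω → α) {N : ℕ} (w : Fin N → Ω) : ℝ :=
  ∑ i, Real.log (mm f (w i))

lemma fibre_card {α : Type} (f : Ω → α) {N : ℕ} (w : Fin N → Ω) :
    ((univ.filter fun v : Fin N → Ω => ∀ i, f (v i) = f (w i)).card : ℝ) =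
      Real.exp (SL f w) := by
  have e : (univ.filter fun v : Fin N → Ω => ∀ i, f (v i) = f (w i)) =
      Fintype.piFinset fun i => univ.filter fun y => f y = f (w i) := by
    ext v
    simp
  rw [e, Fintype.card_piFinset]
  unfold SL
  rw [Real.exp_sum]
  push_cast
  refine Finset.prod_congr rfl fun i _ => ?_
  rw [Real.exp_log (by exact_mod_cast mm_pos f (w i))]
  rfl

/-- Words with small fibres are rare. -/
lemma bad_card {α : Type} (f : Ω → α) {δ : ℝ} (hδ : 0 < δ) {N : ℕ} (hN : 0 < N) :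
    ((univ.filter fun w : Fin N → Ω => SL f w < N * (mn f - δ)).card : ℝ) ≤
      (Fintype.card Ω : ℝ) ^ N *
        ((∑ x, (Real.log (mm f x) - mn f) ^ 2) / (Fintype.card Ω * δ ^ 2)) / N := by
  have hc := cardΩ (Ω := Ω)
  set φ : Ω → ℝ := fun x => Real.log (mm f x) - mn f with hφ
  have h0 : ∑ x, φ x = 0 := by
    rw [hφ, Finset.sum_sub_distrib, Finset.sum_const, card_univ, nsmul_eq_mul]
    unfold mn
    field_simp
    ring
  have h2 := second_moment h0 N
  have h3 : ((univ.filter fun w : Fin N → Ω => SL f w < N * (mn f - δ)).card : ℝ) *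
      (N * δ) ^ 2 ≤ ∑ w : Fin N → Ω, (∑ i, φ (w i)) ^ 2 := by
    rw [← nsmul_eq_mul, ← Finset.sum_const]
    refine (Finset.sum_le_sum fun w hw => ?_).trans
      (Finset.sum_le_sum_of_subset_of_nonneg (Finset.filter_subset _ _) fun w _ _ => sq_nonneg _)
    rw [mem_filter] at hw
    have e : ∑ i, φ (w i) = SL f w - N * mn f := by
      rw [hφ]
      simp only [Finset.sum_sub_distrib, Finset.sum_const, card_univ, Fintype.card_fin,
        nsmul_eq_mul]
      rfl
    have h4 : ∑ i, φ (w i) ≤ -(N * δ) := by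
      rw [e]
      have := hw.2
      linarith
    have h5 : 0 ≤ N * δ := by positivity
    nlinarith
  have hN' : (0 : ℝ) < N := by exact_mod_cast hN
  have h6 : (∑ w : Fin N → Ω, (∑ i, φ (w i)) ^ 2) =
      N * (Fintype.card Ω : ℝ) ^ N * (∑ x, φ x ^ 2) / Fintype.card Ω := by
    rw [eq_div_iff hc.ne', h2]
  rw [h6] at h3
  have h7 : ((univ.filter fun w : Fin N → Ω => SL f w < N * (mn f - δ)).card : ℝ) ≤
      N * (Fintype.card Ω : ℝ) ^ N * (∑ x, φ x ^ 2) / Fintype.card Ω / (N * δ) ^ 2 := by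
    rw [le_div_iff₀ (by positivity)]
    exact h3
  refine h7.trans (le_of_eq ?_)
  have e9 : ∑ x, φ x ^ 2 = ∑ x, (Real.log (mm f x) - mn f) ^ 2 := rfl
  rw [← e9]
  field_simp

/-- Typical words: at least half of all words, with few values of every function. -/
theorem typical {J : Type} [Fintype J] {α : Type} (f : J → Ω → α) {δ : ℝ} (hδ : 0 < δ) :
    ∃ N₀ : ℕ, ∀ N, N₀ ≤ N → ∃ 𝒢 : Finset (Fin N → Ω),
      (Fintype.card Ω : ℝ) ^ N ≤ 2 * 𝒢.card ∧
      ∀ j, ((𝒢.image (fun w i => f j (w i))).card : ℝ) ≤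
        Real.exp (N * (H (unif Ω) (f j) + δ)) := by
  have hc := cardΩ (Ω := Ω)
  set V : ℝ := ∑ j, ((∑ x, (Real.log (mm (f j) x) - mn (f j)) ^ 2) /
    (Fintype.card Ω * δ ^ 2)) with hV
  obtain ⟨N₁, hN₁⟩ := exists_nat_ge (2 * V)
  refine ⟨N₁ + 1, fun N hN => ?_⟩
  have hN0 : 0 < N := by omega
  have hN' : (0 : ℝ) < N := by exact_mod_cast hN0
  refine ⟨univ.filter fun w => ∀ j, N * (mn (f j) - δ) ≤ SL (f j) w, ?_, fun j => ?_⟩
  · have h1 : (univ : Finset (Fin N → Ω)) ⊆
        (univ.filter fun w : Fin N → Ω => ∀ j, N * (mn (f j) - δ) ≤ SL (f j) w) ∪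
          univ.biUnion fun j => univ.filter fun w : Fin N → Ω => SL (f j) w < N * (mn (f j) - δ) := by
      intro w _
      rw [mem_union, mem_filter, mem_biUnion]
      by_cases h : ∀ j, N * (mn (f j) - δ) ≤ SL (f j) w
      · exact Or.inl ⟨mem_univ _, h⟩
      · push Not at h
        obtain ⟨j, hj⟩ := h
        exact Or.inr ⟨j, mem_univ _, by simp [hj]⟩
    have h2 := (card_le_card h1).trans (card_union_le _ _)
    have h3 : ((univ.biUnion fun j => univ.filter fun w : Fin N → Ω =>
        SL (f j) w < N * (mn (f j) - δ)).card : ℝ) ≤ (Fintype.card Ω : ℝ) ^ N / 2 := by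
      refine (by exact_mod_cast card_biUnion_le :
        ((univ.biUnion fun j => univ.filter fun w : Fin N → Ω =>
        SL (f j) w < N * (mn (f j) - δ)).card : ℝ) ≤ ∑ j, ((univ.filter fun w : Fin N → Ω =>
        SL (f j) w < N * (mn (f j) - δ)).card : ℝ)).trans ?_
      refine (Finset.sum_le_sum fun j _ => bad_card (f j) hδ hN0).trans ?_
      rw [← Finset.sum_div, ← Finset.mul_sum, ← hV]
      have h5 : 2 * V ≤ N := hN₁.trans (by exact_mod_cast (by omega : N₁ ≤ N))
      rw [div_le_div_iff₀ hN' (by norm_num)]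
      have h6 : (0 : ℝ) ≤ (Fintype.card Ω : ℝ) ^ N := by positivity
      nlinarith
    have h4 : ((univ : Finset (Fin N → Ω)).card : ℝ) = (Fintype.card Ω : ℝ) ^ N := by
      rw [card_univ, Fintype.card_pi, Finset.prod_const, card_univ, Fintype.card_fin]
      push_cast
      rfl
    have h5 : ((univ : Finset (Fin N → Ω)).card : ℝ) ≤
        ((univ.filter fun w : Fin N → Ω => ∀ j, N * (mn (f j) - δ) ≤ SL (f j) w).card : ℝ) +
        ((univ.biUnion fun j => univ.filter fun w : Fin N → Ω =>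
        SL (f j) w < N * (mn (f j) - δ)).card : ℝ) := by exact_mod_cast h2
    linarith
  · set 𝒢 := univ.filter fun w : Fin N → Ω => ∀ j, N * (mn (f j) - δ) ≤ SL (f j) w with h𝒢
    set Y := 𝒢.image (fun w i => f j (w i)) with hY
    have h1 : (Y.card : ℝ) * Real.exp (N * (mn (f j) - δ)) ≤ (Fintype.card Ω : ℝ) ^ N := by
      have h4 : ((univ : Finset (Fin N → Ω)).card : ℝ) = (Fintype.card Ω : ℝ) ^ N := by
        rw [card_univ, Fintype.card_pi, Finset.prod_const, card_univ, Fintype.card_fin]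
        push_cast
        rfl
      rw [← h4]
      have h5 : ∑ y ∈ Y, ((univ.filter fun v : Fin N → Ω => (fun i => f j (v i)) = y).card : ℝ) ≤
          ((univ : Finset (Fin N → Ω)).card : ℝ) := by
        have := Finset.card_eq_sum_card_image (fun v : Fin N → Ω => fun i => f j (v i)) univ
        rw [this]
        push_cast
        refine Finset.sum_le_sum_of_subset_of_nonneg ?_ fun y _ _ => by positivity
        exact image_subset_image (filter_subset _ _)
      refine le_trans ?_ h5
      rw [← nsmul_eq_mul, ← Finset.sum_const]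
      refine Finset.sum_le_sum fun y hy => ?_
      rw [hY, mem_image] at hy
      obtain ⟨w, hw, rfl⟩ := hy
      rw [h𝒢, mem_filter] at hw
      have h6 := fibre_card (f j) w
      have h7 : (univ.filter fun v : Fin N → Ω => (fun i => f j (v i)) = fun i => f j (w i)) =
          univ.filter fun v : Fin N → Ω => ∀ i, f j (v i) = f j (w i) := by
        ext v
        simp [funext_iff]
      rw [h7, h6]
      exact Real.exp_le_exp.2 (hw.2 j)
    have h2 : Real.exp (N * (H (unif Ω) (f j) + δ)) * Real.exp (N * (mn (f j) - δ)) =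
        (Fintype.card Ω : ℝ) ^ N := by
      rw [← Real.exp_add, H_eq_mn]
      have : (N : ℝ) * (Real.log (Fintype.card Ω) - mn (f j) + δ) + N * (mn (f j) - δ) =
          N * Real.log (Fintype.card Ω) := by ring
      rw [this, ← Real.log_pow, Real.exp_log (by positivity)]
    have h3 := Real.exp_pos (N * (mn (f j) - δ))
    rw [← h2] at h1
    exact le_of_mul_le_mul_right h1 h3

end Pool.Agent.Helper20.GS
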